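import Mathlib

/-!
Bipartite graphs: choice of a block and pruning to large minimal degrees (MP_ee74d2_an, d = 3,
one ball).
-/

set_option autoImplicit false

namespace Pool.Agent.H83.D3N

open Finset

open scoped Classical in
/-- number of pairs -/
noncomputable def eg {A B : Type} (I : A → B → Prop) (X : Finset A) (P : Finset B) : ℕ :=
  ((X ×ˢ P).filter fun t => I t.1 t.2).card

open scoped Classical in
theorem eg_eq_sum {A B : Type} (I : A → B → Prop) (X : Finset A) (P : Finset B) :
    eg I X P = ∑ x ∈ X, (P.filter fun p => I x p).card := by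
  unfold eg
  rw [card_filter, sum_product]
  exact sum_congr rfl fun x _ => (card_filter _ _).symm

open scoped Classical in
theorem eg_eq_sum' {A B : Type} (I : A → B → Prop) (X : Finset A) (P : Finset B) :
    eg I X P = ∑ p ∈ P, (X.filter fun x => I x p).card := by
  unfold eg
  rw [card_filter, sum_product_right]
  exact sum_congr rfl fun x _ => (card_filter _ _).symm

open scoped Classical in
/-- pruning -/
theorem prune {A B : Type} (I : A → B → Prop) (α β : ℝ) : ∀ (n : ℕ) (X : Finset A)
    (P : Finset B), X.card + P.card = n → α * X.card + β * P.card < (eg I X P : ℝ) →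
    ∃ X' ⊆ X, ∃ P' ⊆ P, α * X'.card + β * P'.card < (eg I X' P' : ℝ) ∧
      (∀ x ∈ X', α ≤ ((P'.filter fun p => I x p).card : ℝ)) ∧
      ∀ p ∈ P', β ≤ ((X'.filter fun x => I x p).card : ℝ) := by
  intro n
  induction n using Nat.strong_induction_on with
  | _ n ih =>
    intro X P hn h
    by_cases h1 : ∃ x ∈ X, ((P.filter fun p => I x p).card : ℝ) < α
    · obtain ⟨x, hx, hd⟩ := h1
      have hc : (X.erase x).card + 1 = X.card := card_erase_add_one hx
      have he : eg I X P = eg I (X.erase x) P + (P.filter fun p => I x p).card := by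
        rw [eg_eq_sum, eg_eq_sum, ← sum_erase_add X _ hx]
      obtain ⟨X', hX', P', hP', r⟩ := ih ((X.erase x).card + P.card) (by omega) (X.erase x) P rfl (by
        have hc' : (X.card : ℝ) = (X.erase x).card + 1 := by rw [← hc]; push_cast; ring
        have he' : (eg I X P : ℝ) = eg I (X.erase x) P + (P.filter fun p => I x p).card := by
          rw [he]; push_cast; ring
        rw [hc', he'] at h
        linarith)
      exact ⟨X', hX'.trans (erase_subset _ _), P', hP', r⟩
    by_cases h2 : ∃ p ∈ P, ((X.filter fun x => I x p).card : ℝ) < β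
    · obtain ⟨p, hp, hd⟩ := h2
      have hc : (P.erase p).card + 1 = P.card := card_erase_add_one hp
      have he : eg I X P = eg I X (P.erase p) + (X.filter fun x => I x p).card := by
        rw [eg_eq_sum', eg_eq_sum', ← sum_erase_add P _ hp]
      obtain ⟨X', hX', P', hP', r⟩ := ih (X.card + (P.erase p).card) (by omega) X (P.erase p) rfl (by
        have hc' : (P.card : ℝ) = (P.erase p).card + 1 := by rw [← hc]; push_cast; ring
        have he' : (eg I X P : ℝ) = eg I X (P.erase p) + (X.filter fun x => I x p).card := by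
          rw [he]; push_cast; ring
        rw [hc', he'] at h
        linarith)
      exact ⟨X', hX', P', hP'.trans (erase_subset _ _), r⟩
    · push Not at h1 h2
      exact ⟨X, Subset.rfl, P, Subset.rfl, h, h1, h2⟩

open scoped Classical in
/-- choice of a block: every `p` meets at most `m` blocks -/
theorem block {A B J : Type} (I : A → B → Prop) (α β : ℝ) (hβ : 0 ≤ β) (m : ℕ) (X : Finset A)
    (P : Finset B) (g : A → J)
    (hm : ∀ p ∈ P, (((X.filter fun x => I x p).image g).card : ℕ) ≤ m)
    (h : α * X.card + β * m * P.card < (eg I X P : ℝ)) :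
    ∃ j : J, α * (X.filter fun x => g x = j).card +
      β * (P.filter fun p => ∃ x ∈ X, g x = j ∧ I x p).card <
      (eg I (X.filter fun x => g x = j) (P.filter fun p => ∃ x ∈ X, g x = j ∧ I x p) : ℝ) := by
  by_contra hc
  push Not at hc
  have s1 : (X.card : ℝ) = ∑ j ∈ X.image g, ((X.filter fun x => g x = j).card : ℝ) := by
    rw [card_eq_sum_card_image g X]; push_cast; rfl
  have s2 : ∑ j ∈ X.image g, ((P.filter fun p => ∃ x ∈ X, g x = j ∧ I x p).card : ℝ) ≤
      m * P.card := by
    have e : ∑ j ∈ X.image g, (P.filter fun p => ∃ x ∈ X, g x = j ∧ I x p).card =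
        ∑ p ∈ P, ((X.image g).filter fun j => ∃ x ∈ X, g x = j ∧ I x p).card := by
      simp only [card_filter]
      exact sum_comm
    have b : ∑ p ∈ P, ((X.image g).filter fun j => ∃ x ∈ X, g x = j ∧ I x p).card ≤
        ∑ p ∈ P, m := by
      refine sum_le_sum fun p hp => le_trans (card_le_card ?_) (hm p hp)
      intro j hj
      obtain ⟨-, x, hx, hg, hI⟩ := mem_filter.1 hj
      exact mem_image.2 ⟨x, mem_filter.2 ⟨hx, hI⟩, hg⟩
    have := e.trans_le b
    rw [sum_const, smul_eq_mul, mul_comm] at this
    exact_mod_cast this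
  have s3 : (eg I X P : ℝ) = ∑ j ∈ X.image g,
      (eg I (X.filter fun x => g x = j) (P.filter fun p => ∃ x ∈ X, g x = j ∧ I x p) : ℝ) := by
    rw [eg_eq_sum]
    have e : ∀ j ∈ X.image g, eg I (X.filter fun x => g x = j)
        (P.filter fun p => ∃ x ∈ X, g x = j ∧ I x p) =
        ∑ x ∈ X.filter (fun x => g x = j), (P.filter fun p => I x p).card := by
      intro j _
      rw [eg_eq_sum]
      refine sum_congr rfl fun x hx => ?_
      congr 1
      ext p
      simp only [mem_filter]
      constructor
      · rintro ⟨⟨a, -⟩, b⟩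
        exact ⟨a, b⟩
      · rintro ⟨a, b⟩
        exact ⟨⟨a, x, (mem_filter.1 hx).1, (mem_filter.1 hx).2, b⟩, b⟩
    push_cast
    rw [← sum_fiberwise_of_maps_to (s := X) (t := X.image g) (g := g)
      (fun x hx => mem_image_of_mem g hx)]
    refine sum_congr rfl fun j hj => ?_
    rw [e j hj]
    push_cast
    rfl
  have s4 := sum_le_sum fun j (_ : j ∈ X.image g) => hc j
  rw [← s3, sum_add_distrib, ← mul_sum, ← mul_sum, ← s1] at s4
  have := mul_le_mul_of_nonneg_left s2 hβ
  linarith

end Pool.Agent.H83.D3N
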