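import Pool.Agent.H91.EL.Targets
import Pool.Agent.H92.EZ.Targets
import Pool.Agent.H82.LB.Targets2
import Pool.Agent.H83.D3N.Graph

/-!
MP_ee74d2_an, dimension 3 (`m = 2`), exponents below `10/3`: one ball. The end state of the chain
(points, packets of the caps of radius `1/ρ`, planar at the scale `1/K₁`) contradicts the end lemma
`T_MAI` (H91/EL) and the energy estimate `T_EZ` of the original wave (H92/EZ), unless `K₁` is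
bounded by a power of the losses. Page `/team-store/H81_D3N.md`, section 6.
-/

set_option autoImplicit false

namespace Pool.Agent.H83.D3N

open MeasureTheory Set
open scoped ENNReal NNReal RealInnerProductSpace
open Pool.Agent.H83.G (Z E TF TP Lo ctr IsPU Sep)
open Pool.Agent.H83.LS (BCd EE)
open Pool.Agent.H81.GT (tz SymE IsX Gf)
open Pool.Agent.H91.EL (qB qQ ll Sg gr Conf T_MAI)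
open Pool.Agent.H92.EZ (sgm dsg T_EZ)
open Pool.Agent.H82.LB (CirZ)

/-- packets: tag (index of a cap of radius `1/K₁`), index of a cap of radius `1/ρ`, point -/
abbrev Tp := (Fin 2 → ℤ) × (Fin 2 → ℤ) × Z 2

/-- the direction of a packet -/
noncomputable def ea (ρ : ℝ) (p : Tp) : E 2 := ctr ρ⁻¹ p.2.1

/-- a family of packets of `G` of height at least `h` -/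
structure Fam (β : E 2 → ℂ) (G : Z 2 → ℂ) (h ρ K₁ : ℝ) (P : Finset Tp) : Prop where
  pk : ∀ p ∈ P, h ≤ ‖TP β (ea ρ p) ρ⁻¹ G p.2.2‖
  eta : ∀ p ∈ P, ‖ea ρ p‖ ≤ 3
  tag : ∀ p ∈ P, ‖ea ρ p - ctr K₁⁻¹ p.1‖ ≤ 100 / K₁
  sepP : ∀ p ∈ P, ∀ p' ∈ P, p.1 = p'.1 → p.2.1 = p'.2.1 → p ≠ p' →
    1 ≤ ‖Lo (ea ρ p) ρ⁻¹ (p.2.2 - p'.2.2)‖

open scoped Classical in
/-- the end state of the chain -/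
structure EndS (D ρ K₁ : ℝ) (X : Finset (Z 2)) (P : Finset Tp) (I : Z 2 → Tp → Prop) : Prop where
  rel : ∀ z ∈ X, ∀ p ∈ P, I z p → ‖Lo (ea ρ p) ρ⁻¹ (z - p.2.2)‖ ≤ D
  deg : ∀ z ∈ X, ∀ t : Fin 2 → ℤ,
    ((P.filter fun p => I z p ∧ p.1 = t).card : ℝ) ≤ D * ρ / K₁
  top : ∀ z ∈ X, ∃ (n : ℕ) (V : Fin n → Z 2), (n : ℝ) ≤ D ∧ (∀ j, V j ≠ 0) ∧
    ∀ p ∈ P, I z p → ∃ j, ∃ η ∈ CirZ (V j), ‖ctr K₁⁻¹ p.1 - η‖ ≤ 3 / K₁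
  sep : Sep X
  e0 : 0 < eg I X P
  e1 : (P.card : ℝ) * ρ ^ 4 ≤ D * eg I X P
  e2 : ρ * (X.card : ℝ) ≤ D * eg I X P

/-- CIR: the caps near a circle (line, point) in a disc -/
def T_CIR : Prop := ∃ C : ℝ, 1 ≤ C ∧ ∀ (K r : ℝ) (x : E 2) (V : Z 2) (T : Finset (Fin 2 → ℤ)),
  1 ≤ K → 0 ≤ r → V ≠ 0 →
  (∀ t ∈ T, ‖ctr K⁻¹ t - x‖ ≤ r ∧ ∃ η ∈ CirZ V, ‖ctr K⁻¹ t - η‖ ≤ 3 / K) →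
  (T.card : ℝ) ≤ C * (r * K + 1)

/-- SPN: separated points in a plank -/
def T_SPN : Prop := ∃ C : ℝ, 1 ≤ C ∧ ∀ (η : E 2) (s D : ℝ) (u : Z 2) (Y : Finset (Z 2)),
  0 < s → 1 ≤ D → (∀ y ∈ Y, ‖Lo η s y - u‖ ≤ D) →
  (∀ y ∈ Y, ∀ y' ∈ Y, y ≠ y' → 1 ≤ ‖Lo η s (y - y')‖) → (Y.card : ℝ) ≤ C * D ^ 4

/-- CAN: the caps in a disc -/
def T_CPN : Prop := ∀ (ρ c : ℝ) (η₀ : E 2) (T : Finset (Fin 2 → ℤ)), 0 < ρ → 1 ≤ c →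
  (∀ k ∈ T, ‖ctr ρ⁻¹ k - η₀‖ ≤ c / ρ) → (T.card : ℝ) ≤ 49 * c ^ 2

/-- SHF: from a point to the packet -/
def T_SHF : Prop := ∃ C : ℝ, 1 ≤ C ∧ ∀ (ρ D Λ lam e₁ e₂ : ℝ) (n a z u : Z 2) (η : E 2),
  1 ≤ ρ → 1 ≤ D → 1 ≤ Λ → ‖n‖ = 1 → ‖η‖ ≤ 3 → |lam| * ρ ^ 2 ≤ Λ → ‖z - a‖ ≤ 2 * ρ ^ 2 →
  ‖Lo η ρ⁻¹ (z - u)‖ ≤ D → |Sg lam n a z| ≤ e₁ → |qB (gr lam n a z) (ll η)| ≤ e₂ →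
  |Sg lam n a u| ≤ e₁ + D * ρ ^ 2 * e₂ + C * Λ * D ^ 2 * ρ ∧
  |qB (gr lam n a u) (ll η)| ≤ e₂ + C * Λ * D / ρ ^ 2

/-- QCV: the quadric functions of `T_MAI` in the form of `T_EZ`, recentred and normalized -/
def T_QCV : Prop := ∀ (ρ lam : ℝ) (n a z₀ : Z 2), 1 ≤ ρ → ‖n‖ = 1 →
  ∃ (M α c : ℝ) (b : Z 2), 0 < M ∧ 1 ≤ M * (1 + ρ⁻¹ ^ 2 * ‖z₀ - a‖) ∧ |α| ≤ ρ⁻¹ ^ 2 ∧ ‖b‖ ≤ 1 ∧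
  (1 / 2 * ρ⁻¹ ^ 2 ≤ |α| ∨ 1 / 2 ≤ ‖b‖) ∧ ∀ (u : Z 2) (θ : E 2),
    M * sgm α b c (u - z₀) = Sg lam n a u ∧ M * dsg α b (u - z₀) θ = qB (gr lam n a u) (ll θ)

/-- CEL: covering by cells of side about `ρ²` -/
def T_CEL : Prop := ∃ C : ℝ, 1 ≤ C ∧ ∀ (D ρ B : ℝ) (z₀ : Z 2) (P : Finset Tp), 1 ≤ D → 1 ≤ ρ →
  0 ≤ B → (∀ p ∈ P, ‖p.2.2 - z₀‖ ≤ 100 * D * ρ ^ 2) →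
  (∀ z₁ : Z 2, ‖z₁ - z₀‖ ≤ 102 * D * ρ ^ 2 → ∀ Q ⊆ P, (∀ p ∈ Q, ‖p.2.2 - z₁‖ ≤ 2 * ρ ^ 2 ∧
    0 ≤ (p.2.2 - z₁).2.2 ∧ (p.2.2 - z₁).2.2 ≤ ρ ^ 2) → (Q.card : ℝ) ≤ B) →
  (P.card : ℝ) ≤ C * D ^ 4 * B

/-- EZS: the energy estimate near a quadric for families of packets -/
def T_EZS : Prop := ∀ (κ δ : ℝ) (β : E 2 → ℂ) (a : EE 3 → ℂ) (Xc χ : ℝ → ℂ), κ ≤ 1 / 8 →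
  SymE 2 κ a → IsX Xc χ → IsPU β → 0 < δ → ∃ C : ℝ, 1 ≤ C ∧
  ∀ (R A ρ K K₁ h α c : ℝ) (b z₀ : Z 2) (f : EE 3 → ℂ) (P : Finset Tp), C ≤ R → BCd A f →
  0 < A → 1 ≤ ρ → ρ ^ 2 ≤ R → 1 ≤ K → K ≤ ρ → 1 ≤ K₁ → |α| ≤ ρ⁻¹ ^ 2 → ‖b‖ ≤ 1 →
  (1 / 2 * ρ⁻¹ ^ 2 ≤ |α| ∨ 1 / 2 ≤ ‖b‖) → |tz z₀| ≤ 4 * R → 0 < h → A ≤ Real.sqrt R * h →
  Fam β (Gf Xc R a f) h ρ K₁ P →
  (∀ p ∈ P, ‖p.2.2 - z₀‖ ≤ 4 * ρ ^ 2 ∧ |sgm α b c (p.2.2 - z₀)| ≤ ρ ^ 2 / K ∧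
    |dsg α b (p.2.2 - z₀) (ea ρ p)| ≤ 1 / K) →
  (P.card : ℝ) * h ^ 2 ≤ C * R ^ δ * (A ^ 2 * R ^ 2 / Real.sqrt K)

/-- H6: the total number of packets in a ball of radius `D ρ²` -/
def T_H6 : Prop := ∀ (κ δ : ℝ) (β : E 2 → ℂ) (a : EE 3 → ℂ) (Xc χ : ℝ → ℂ), κ ≤ 1 / 8 →
  SymE 2 κ a → IsX Xc χ → IsPU β → 0 < δ → ∃ C : ℝ, 1 ≤ C ∧
  ∀ (R A D ρ K₁ h : ℝ) (z₀ : Z 2) (f : EE 3 → ℂ) (P : Finset Tp), C ≤ R → BCd A f →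
  0 < A → 1 ≤ D → 1 ≤ ρ → 300 * D * ρ ^ 2 ≤ R → 1 ≤ K₁ → |tz z₀| ≤ 3 * R → 0 < h →
  A ≤ Real.sqrt R * h → Fam β (Gf Xc R a f) h ρ K₁ P →
  (∀ p ∈ P, ‖p.2.2 - z₀‖ ≤ 100 * D * ρ ^ 2) →
  (P.card : ℝ) * h ^ 2 ≤ C * R ^ δ * D ^ 4 * (A ^ 2 * R ^ 2)

/-- SPH: the number of packets near a quadric -/
def T_SPH : Prop := ∀ (κ δ : ℝ) (β : E 2 → ℂ) (a : EE 3 → ℂ) (Xc χ : ℝ → ℂ), κ ≤ 1 / 8 →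
  SymE 2 κ a → IsX Xc χ → IsPU β → 0 < δ → ∃ C : ℝ, 1 ≤ C ∧
  ∀ (R A D ρ K K₁ h lam : ℝ) (n a' z₀ : Z 2) (f : EE 3 → ℂ) (P : Finset Tp), C ≤ R → BCd A f →
  0 < A → 1 ≤ D → 1 ≤ ρ → 300 * D * ρ ^ 2 ≤ R → 1 ≤ K → K ≤ ρ → 1 ≤ K₁ → |tz z₀| ≤ 3 * R →
  0 < h → A ≤ Real.sqrt R * h → Fam β (Gf Xc R a f) h ρ K₁ P → ‖n‖ = 1 →
  ‖z₀ - a'‖ ≤ 2 * ρ ^ 2 →
  (∀ p ∈ P, ‖p.2.2 - z₀‖ ≤ 100 * D * ρ ^ 2 ∧ 200 * D * K * |Sg lam n a' p.2.2| ≤ ρ ^ 2 ∧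
    200 * D * K * |qB (gr lam n a' p.2.2) (ll (ea ρ p))| ≤ 1) →
  (P.card : ℝ) * h ^ 2 ≤ C * R ^ δ * D ^ 4 * (A ^ 2 * R ^ 2 / Real.sqrt K)

/-- CNF: the end state contains a configuration -/
def T_CNF : Prop := ∃ C : ℝ, 1 ≤ C ∧ ∀ (β : E 2 → ℂ) (G : Z 2 → ℂ) (h D D₁ ρ K₁ B : ℝ)
  (X : Finset (Z 2)) (P : Finset Tp) (I : Z 2 → Tp → Prop), 1 ≤ D → 1 ≤ K₁ → K₁ ≤ ρ →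
  Fam β G h ρ K₁ P → EndS D ρ K₁ X P I →
  (∀ z₀ : Z 2, (∃ z ∈ X, ‖z - z₀‖ ≤ ρ ^ 2) → ∀ Q ⊆ P,
    (∀ p ∈ Q, ‖p.2.2 - z₀‖ ≤ 100 * D * ρ ^ 2) → (Q.card : ℝ) ≤ B * ρ ^ 4) →
  C * D ^ 6 ≤ D₁ → B ≤ D₁ → C * D₁ ≤ K₁ →
  ∃ (z₀ : Z 2) (X' : Finset (Z 2)) (P' : Finset Tp) (I' : Z 2 → Tp → Prop), X'.Nonempty ∧
    P' ⊆ P ∧ (∃ z ∈ X, ‖z - z₀‖ ≤ ρ ^ 2) ∧
    (∀ z ∈ X', z + z₀ ∈ X ∧ ∀ p ∈ P', I' z p → I (z + z₀) p) ∧ (∀ p ∈ P', ∃ z ∈ X', I' z p) ∧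
    Conf ρ D₁ (K₁ / C) X' P' (ea ρ) I'

/-- OB: one ball -/
def T_OB : Prop := ∃ C₀ : ℕ, ∀ (κ δ : ℝ) (β : E 2 → ℂ) (a : EE 3 → ℂ) (Xc χ : ℝ → ℂ), κ ≤ 1 / 8 →
  SymE 2 κ a → IsX Xc χ → IsPU β → 0 < δ → ∃ C : ℝ, 1 ≤ C ∧
  ∀ (R A D D₂ ρ K₁ h : ℝ) (f : EE 3 → ℂ) (X : Finset (Z 2)) (P : Finset Tp)
  (I : Z 2 → Tp → Prop), C ≤ R → BCd A f → 0 < A → 1 ≤ D → D ≤ D₂ → 1 ≤ K₁ → K₁ ≤ ρ →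
  300 * D * ρ ^ 2 ≤ R → 0 < h → A * R ≤ D₂ * ρ ^ 2 * h → (∀ z ∈ X, |tz z| ≤ 2 * R) →
  Fam β (Gf Xc R a f) h ρ K₁ P → EndS D ρ K₁ X P I → K₁ ≤ C * R ^ δ * D₂ ^ C₀

end Pool.Agent.H83.D3N
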