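import Pool.Agent.H81.D3.Targets
import Pool.Agent.H83.D3N.Targets

/-!
MP_ee74d2_an, dimension 3, exponents below `10/3`: from the end state of the chain (H81/D3, `StT`)
to the one ball lemma (`T_OB`).
-/

set_option autoImplicit false

namespace Pool.Agent.H83.D3N

open MeasureTheory Set
open scoped ENNReal NNReal RealInnerProductSpace
open Pool.Agent.H83.G (Z E TF TP Lo ctr IsPU Sep Cls Ks)
open Pool.Agent.H83.LS (BCd EE)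
open Pool.Agent.H81.GT (tz SymE IsX Gf)
open Pool.Agent.H81.D3 (StT St En43 E43 Lc Gc Pq PSep PTag Qzt Cz T_RSE T_CMP T_GSB)
open Pool.Agent.H82.LB (CirZ)

/-- OBT: the end state of the chain is impossible with large `K₁` -/
def T_OBT : Prop := ∃ C₀ : ℕ, ∀ (κ δ ε : ℝ) (L : ℕ) (β : E 2 → ℂ) (a : EE 3 → ℂ) (Xc χ : ℝ → ℂ),
  κ ≤ 1 / 8 → SymE 2 κ a → IsX Xc χ → IsPU β → 10 ≤ L → 0 < δ → 0 < ε → ∃ C : ℝ, 1 ≤ C ∧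
  ∀ (Cb R A A' H₀ D D₂ H : ℝ) (f : EE 3 → ℂ) (X : Finset (Z 2)) (K₁ n w : ℕ) (P : Finset Pq)
  (Q : Finset (Z 2 × Pq)), C ≤ R → BCd A f → 0 < A → A ≤ A' →
  Cls L (1 / 4) R A' (Gf Xc R a f) → 1 ≤ Cb → E43 L ε Cb → Sep X →
  (∀ z ∈ X, R ≤ tz z ∧ tz z ≤ 2 * R ∧ H₀ ≤ ‖TF (Gf Xc R a f) z‖) → 0 < H₀ →
  0 < En43 A' R (Gf Xc R a f) →
  StT β (Gf Xc R a f) (En43 A' R (Gf Xc R a f)) H₀ D X K₁ n w H P Q → C * Cb * R ^ ε ≤ D →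
  1 ≤ n → (n : ℝ) ≤ D → D ≤ D₂ → C * D ^ 4 * (w : ℝ) ^ 2 ≤ R → A' * R ≤ D₂ * ((w : ℝ) ^ 2 * H) →
  (K₁ : ℝ) ≤ C * R ^ δ * D₂ ^ C₀

end Pool.Agent.H83.D3N
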