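import Pool.Agent.H83.D3N.Targets

/-! CNF: the end state contains a configuration. -/

set_option autoImplicit false

namespace Pool.Agent.H83.D3N.CNFc

open scoped RealInnerProductSpace
open Pool.Agent.H83.G (Z E Zi TF TP Lo ctr IsPU Sep cb)
open Pool.Agent.H91.EL (qB qB_comm qB_ll ll Conf PC PZ XP norm_fst_le' norm_y_le norm_w_le)
open Pool.Agent.H82.LB (CirZ)
open Pool.Agent.H83.D3N

/-! ### cells -/

theorem floor_close {σ : ℝ} (hσ : 0 < σ) {a b : ℝ} (hab : ⌊a / σ⌋ = ⌊b / σ⌋) : |a - b| ≤ σ := by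
  have h1 := Int.abs_sub_lt_one_of_floor_eq_floor hab
  have h2 : a - b = (a / σ - b / σ) * σ := by
    field_simp
  rw [h2, abs_mul, abs_of_pos hσ]
  nlinarith [h1.le]

theorem norm_two_le {σ : ℝ} (hσ : 0 ≤ σ) (y : E 2) (h : ∀ i, |y i| ≤ σ) : ‖y‖ ≤ 2 * σ := by
  rw [EuclideanSpace.norm_eq, Fin.sum_univ_two]
  refine Real.sqrt_le_iff.2 ⟨by linarith, ?_⟩
  have h0 := h 0
  have h1 := h 1
  rw [Real.norm_eq_abs, Real.norm_eq_abs]
  nlinarith [abs_nonneg (y 0), abs_nonneg (y 1)]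

theorem cell_close {σ : ℝ} (hσ : 0 < σ) {z z' : Z 2} (h : cb σ z = cb σ z') :
    ‖z - z'‖ ≤ 2 * σ := by
  have h1 : ⌊z.1 / σ⌋ = ⌊z'.1 / σ⌋ := congrArg Prod.fst h
  have h2 : ∀ i, ⌊z.2.1 i / σ⌋ = ⌊z'.2.1 i / σ⌋ := fun i =>
    congrFun (congrArg (fun q : Zi 2 => q.2.1) h) i
  have h3 : ⌊z.2.2 / σ⌋ = ⌊z'.2.2 / σ⌋ := congrArg (fun q : Zi 2 => q.2.2) h
  rw [Prod.norm_def, Prod.norm_def]
  refine max_le ?_ (max_le ?_ ?_)
  · refine (floor_close hσ h1).trans (by linarith)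
  · exact norm_two_le hσ.le _ fun i => floor_close hσ (h2 i)
  · refine (floor_close hσ h3).trans (by linarith)

theorem floor_far {σ M : ℝ} (hσ : 0 < σ) {n : ℕ} (hn : M + 1 ≤ n) {a b : ℝ}
    (h : |a - b| ≤ M * σ) : ⌊a / σ⌋ ∈ Finset.Icc (⌊b / σ⌋ - (n : ℤ)) (⌊b / σ⌋ + n) := by
  have h1 : |a / σ - b / σ| ≤ M := by
    rw [← sub_div, abs_div, abs_of_pos hσ, div_le_iff₀ hσ]
    exact h
  rw [abs_le] at h1
  have a1 := Int.floor_le (a / σ)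
  have a2 := Int.lt_floor_add_one (a / σ)
  have b1 := Int.floor_le (b / σ)
  have b2 := Int.lt_floor_add_one (b / σ)
  rw [Finset.mem_Icc]
  constructor
  · have : ((⌊b / σ⌋ - (n : ℤ) : ℤ) : ℝ) < ((⌊a / σ⌋ + 1 : ℤ) : ℝ) := by
      push_cast
      linarith [h1.1]
    have h2 : ⌊b / σ⌋ - (n : ℤ) < ⌊a / σ⌋ + 1 := by exact_mod_cast this
    omega
  · have : ((⌊a / σ⌋ : ℤ) : ℝ) < ((⌊b / σ⌋ + n + 1 : ℤ) : ℝ) := by
      push_cast
      linarith [h1.2]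
    have h2 : ⌊a / σ⌋ < ⌊b / σ⌋ + n + 1 := by exact_mod_cast this
    omega

open scoped Classical in
theorem cells_card {σ M : ℝ} (hσ : 0 < σ) (n : ℕ) (hn : M + 1 ≤ n) (Y : Finset (Z 2))
    (h : ∀ z ∈ Y, ∀ z' ∈ Y, ‖z - z'‖ ≤ M * σ) : (Y.image (cb σ)).card ≤ (2 * n + 1) ^ 4 := by
  rcases Y.eq_empty_or_nonempty with h0 | ⟨z₁, hz₁⟩
  · rw [h0, Finset.image_empty, Finset.card_empty]
    exact Nat.zero_le _
  have hsub : Y.image (cb σ) ⊆ Finset.Icc (⌊z₁.1 / σ⌋ - (n : ℤ)) (⌊z₁.1 / σ⌋ + n) ×ˢ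
      ((Fintype.piFinset fun i : Fin 2 => Finset.Icc (⌊z₁.2.1 i / σ⌋ - (n : ℤ))
        (⌊z₁.2.1 i / σ⌋ + n)) ×ˢ
        Finset.Icc (⌊z₁.2.2 / σ⌋ - (n : ℤ)) (⌊z₁.2.2 / σ⌋ + n)) := by
    intro q hq
    obtain ⟨z, hz, rfl⟩ := Finset.mem_image.1 hq
    have hd := h z hz z₁ hz₁
    rw [Finset.mem_product, Finset.mem_product, Fintype.mem_piFinset]
    refine ⟨floor_far hσ hn ((norm_fst_le' (z - z₁)).trans hd), fun i => ?_,
      floor_far hσ hn ((norm_w_le (z - z₁)).trans hd)⟩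
    refine floor_far hσ hn (le_trans ?_ ((norm_y_le (z - z₁)).trans hd))
    exact PiLp.norm_apply_le (z - z₁).2.1 i
  have hI : ∀ a : ℤ, (Finset.Icc (a - (n : ℤ)) (a + n)).card = 2 * n + 1 := by
    intro a
    rw [Int.card_Icc]
    omega
  refine (Finset.card_le_card hsub).trans (le_of_eq ?_)
  rw [Finset.card_product, Finset.card_product, Fintype.card_piFinset, Fin.prod_univ_two, hI, hI,
    hI, hI]
  ring

/-! ### the choice of a circle -/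

/-- the tag is near the circle `V` -/
def NC (K₁ : ℝ) (V : Z 2) (p : Tp) : Prop := ∃ η ∈ CirZ V, ‖ctr K₁⁻¹ p.1 - η‖ ≤ 3 / K₁

open scoped Classical in
theorem circle_choice {D K₁ : ℝ} {P : Finset Tp} {J : Tp → Prop} (hD : 0 ≤ D)
    (htop : ∃ (n : ℕ) (V : Fin n → Z 2), (n : ℝ) ≤ D ∧ (∀ j, V j ≠ 0) ∧
      ∀ p ∈ P, J p → ∃ j, ∃ η ∈ CirZ (V j), ‖ctr K₁⁻¹ p.1 - η‖ ≤ 3 / K₁)
    (Q : Finset Tp) (hQ : Q ⊆ P) : ∃ V : Z 2, V ≠ 0 ∧ ((Q.filter J).card : ℝ) ≤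
      D * ((Q.filter fun p => J p ∧ NC K₁ V p).card : ℝ) := by
  obtain ⟨n, V, hn, hV, h⟩ := htop
  have hcov : (Q.filter J).card ≤ ∑ j : Fin n, (Q.filter fun p => J p ∧ NC K₁ (V j) p).card := by
    have hsub : Q.filter J ⊆ Finset.univ.biUnion fun j : Fin n =>
        Q.filter fun p => J p ∧ NC K₁ (V j) p := by
      intro p hp
      obtain ⟨hpQ, hpJ⟩ := Finset.mem_filter.1 hp
      obtain ⟨j, hj⟩ := h p (hQ hpQ) hpJ
      exact Finset.mem_biUnion.2 ⟨j, Finset.mem_univ j, Finset.mem_filter.2 ⟨hpQ, hpJ, hj⟩⟩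
    exact (Finset.card_le_card hsub).trans Finset.card_biUnion_le
  rcases Nat.eq_zero_or_pos n with h0 | h0
  · subst h0
    refine ⟨((1 : ℝ), 0, 0), ?_, ?_⟩
    · intro h1
      have h2 := congrArg Prod.fst h1
      exact one_ne_zero h2
    · rw [Finset.univ_eq_empty, Finset.sum_empty] at hcov
      rw [Nat.le_zero.1 hcov, Nat.cast_zero]
      exact mul_nonneg hD (Nat.cast_nonneg _)
  · by_contra hcon
    push Not at hcon
    have h1 : ∀ j : Fin n, D * ((Q.filter fun p => J p ∧ NC K₁ (V j) p).card : ℝ) <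
        ((Q.filter J).card : ℝ) := fun j => hcon (V j) (hV j)
    have h2 : ∑ j : Fin n, D * ((Q.filter fun p => J p ∧ NC K₁ (V j) p).card : ℝ) <
        ∑ j : Fin n, ((Q.filter J).card : ℝ) :=
      Finset.sum_lt_sum_of_nonempty ⟨⟨0, h0⟩, Finset.mem_univ _⟩ fun j _ => h1 j
    rw [← Finset.mul_sum, Finset.sum_const, Finset.card_univ, Fintype.card_fin,
      nsmul_eq_mul] at h2
    have h3 : ((Q.filter J).card : ℝ) ≤
        ∑ j : Fin n, ((Q.filter fun p => J p ∧ NC K₁ (V j) p).card : ℝ) := by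
      exact_mod_cast hcov
    have h4 := mul_le_mul_of_nonneg_left h3 hD
    have h5 : (n : ℝ) * ((Q.filter J).card : ℝ) ≤ D * ((Q.filter J).card : ℝ) :=
      mul_le_mul_of_nonneg_right hn (Nat.cast_nonneg _)
    linarith

/-! ### fibres -/

theorem card_fib {α β : Type} [DecidableEq β] (s : Finset α) (f : α → β) (c : ℝ)
    (h : ∀ a ∈ s.image f, ((s.filter fun x => f x = a).card : ℝ) ≤ c) :
    (s.card : ℝ) ≤ c * (s.image f).card := by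
  have h1 : s.card = ∑ a ∈ s.image f, (s.filter fun x => f x = a).card :=
    Finset.card_eq_sum_card_image f s
  rw [h1, Nat.cast_sum]
  refine (Finset.sum_le_sum h).trans (le_of_eq ?_)
  rw [Finset.sum_const, nsmul_eq_mul, mul_comm]

/-- the planks of a point in a disc of radius `ρ⁻¹` -/
theorem small_disc {Cs : ℝ}
    (hSPN : ∀ (η : E 2) (s D : ℝ) (u : Z 2) (Y : Finset (Z 2)), 0 < s → 1 ≤ D →
      (∀ y ∈ Y, ‖Lo η s y - u‖ ≤ D) →
      (∀ y ∈ Y, ∀ y' ∈ Y, y ≠ y' → 1 ≤ ‖Lo η s (y - y')‖) → (Y.card : ℝ) ≤ Cs * D ^ 4)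
    (hCPN : T_CPN) (hLOA : Pool.Agent.H83.G.T_LOA) {ρ D K₁ : ℝ} (hρ : 0 < ρ) (hD : 1 ≤ D)
    (hCs : 0 ≤ Cs)
    (hK : 0 < K₁) (z : Z 2) (η₀ : E 2) (Q : Finset Tp)
    (hrel : ∀ p ∈ Q, ‖Lo (ea ρ p) ρ⁻¹ (z - p.2.2)‖ ≤ D)
    (hnear : ∀ p ∈ Q, ‖ea ρ p - η₀‖ ≤ ρ⁻¹)
    (htag : ∀ p ∈ Q, ‖ea ρ p - ctr K₁⁻¹ p.1‖ ≤ 100 / K₁)
    (hsep : ∀ p ∈ Q, ∀ p' ∈ Q, p.1 = p'.1 → p.2.1 = p'.2.1 → p ≠ p' →
      1 ≤ ‖Lo (ea ρ p) ρ⁻¹ (p.2.2 - p'.2.2)‖) : (Q.card : ℝ) ≤ 24010000 * Cs * D ^ 4 := by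
  classical
  have h1 : ((Q.image fun p => p.2.1).card : ℝ) ≤ 49 * 1 ^ 2 := by
    refine hCPN ρ 1 η₀ _ hρ le_rfl ?_
    intro k hk
    obtain ⟨p, hp, rfl⟩ := Finset.mem_image.1 hk
    rw [one_div]
    exact hnear p hp
  have h2 : ∀ k ∈ Q.image fun p => p.2.1,
      ((Q.filter fun p => p.2.1 = k).card : ℝ) ≤ Cs * D ^ 4 * 490000 := by
    intro k hk
    have h3 : (((Q.filter fun p => p.2.1 = k).image fun p => p.1).card : ℝ) ≤ 49 * 100 ^ 2 := by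
      refine hCPN K₁ 100 (ctr ρ⁻¹ k) _ hK (by norm_num) ?_
      intro t ht
      obtain ⟨p, hp, rfl⟩ := Finset.mem_image.1 ht
      obtain ⟨hpQ, hpk⟩ := Finset.mem_filter.1 hp
      have h4 := htag p hpQ
      unfold ea at h4
      rw [hpk] at h4
      rw [norm_sub_rev]
      exact h4
    have h4 : ∀ t ∈ (Q.filter fun p => p.2.1 = k).image fun p => p.1,
        (((Q.filter fun p => p.2.1 = k).filter fun p => p.1 = t).card : ℝ) ≤ Cs * D ^ 4 := by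
      intro t ht
      obtain ⟨R, hR⟩ : ∃ R : Finset Tp, R = (Q.filter fun p => p.2.1 = k).filter
        fun p => p.1 = t := ⟨_, rfl⟩
      have hRm : ∀ p ∈ R, p ∈ Q ∧ p.2.1 = k ∧ p.1 = t := by
        intro p hp
        rw [hR, Finset.mem_filter, Finset.mem_filter] at hp
        exact ⟨hp.1.1, hp.1.2, hp.2⟩
      rw [← hR]
      have hinj : Set.InjOn (fun p : Tp => p.2.2) R := by
        intro p hp p' hp' hpp
        obtain ⟨a1, a2, a3⟩ := hRm p hp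
        obtain ⟨b1, b2, b3⟩ := hRm p' hp'
        exact Prod.ext (a3.trans b3.symm) (Prod.ext (a2.trans b2.symm) hpp)
      rw [← Finset.card_image_of_injOn hinj]
      refine hSPN (ctr ρ⁻¹ k) ρ⁻¹ D (Lo (ctr ρ⁻¹ k) ρ⁻¹ z) _ (inv_pos.2 hρ) hD ?_ ?_
      · intro y hy
        obtain ⟨p, hp, rfl⟩ := Finset.mem_image.1 hy
        obtain ⟨a1, a2, a3⟩ := hRm p hp
        have h5 := hrel p a1
        unfold ea at h5
        rw [a2, ((hLOA 2).1 _ _ _ _).2.1, norm_sub_rev] at h5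
        exact h5
      · intro y hy y' hy' hne
        obtain ⟨p, hp, rfl⟩ := Finset.mem_image.1 hy
        obtain ⟨p', hp', rfl⟩ := Finset.mem_image.1 hy'
        obtain ⟨a1, a2, a3⟩ := hRm p hp
        obtain ⟨b1, b2, b3⟩ := hRm p' hp'
        have h5 := hsep p a1 p' b1 (a3.trans b3.symm) (a2.trans b2.symm)
          (fun h => hne (by rw [h]))
        unfold ea at h5
        rw [a2] at h5
        exact h5
    have h5 := card_fib (Q.filter fun p => p.2.1 = k) (fun p => p.1) (Cs * D ^ 4) h4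
    exact h5.trans (mul_le_mul_of_nonneg_left (h3.trans (by norm_num)) (by positivity))
  have h6 := card_fib Q (fun p => p.2.1) (Cs * D ^ 4 * 490000) h2
  refine h6.trans ?_
  have h7 : (0 : ℝ) ≤ Cs * D ^ 4 * 490000 := by positivity
  have h8 := mul_le_mul_of_nonneg_left h1 h7
  refine h8.trans (le_of_eq ?_)
  ring

/-! ### the plane -/

theorem plane_near {K₁ : ℝ} (hK : 1 ≤ K₁) {V : Z 2} (hV : V ≠ 0) {e : E 2} (he : ‖e‖ ≤ 3)
    {η : E 2} (hη : η ∈ CirZ V) (h : ‖e - η‖ ≤ 103 / K₁) :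
    |qB (‖V‖⁻¹ • V) (ll e)| ≤ 22660 / K₁ := by
  have hV0 : 0 < ‖V‖ := norm_pos_iff.2 hV
  have hK0 : 0 < K₁ := by linarith
  have h71 : 103 / K₁ ≤ 103 := by
    rw [div_le_iff₀ hK0]
    linarith
  have hn : ‖η‖ ≤ 106 := by
    have h1 := norm_sub_norm_le η e
    rw [norm_sub_rev] at h1
    linarith
  have hη0 : V.1 + ⟪V.2.1, η⟫ + V.2.2 * ‖η‖ ^ 2 = 0 := hη
  rw [qB_comm, qB_ll]
  have e1 : (‖V‖⁻¹ • V).1 + ⟪(‖V‖⁻¹ • V).2.1, e⟫ + (‖V‖⁻¹ • V).2.2 * ‖e‖ ^ 2 =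
      ‖V‖⁻¹ * (⟪V.2.1, e - η⟫ + V.2.2 * (‖e‖ ^ 2 - ‖η‖ ^ 2)) := by
    have e2 : (‖V‖⁻¹ • V).1 + ⟪(‖V‖⁻¹ • V).2.1, e⟫ + (‖V‖⁻¹ • V).2.2 * ‖e‖ ^ 2 =
        ‖V‖⁻¹ * (V.1 + ⟪V.2.1, e⟫ + V.2.2 * ‖e‖ ^ 2) := by
      simp only [Prod.smul_fst, Prod.smul_snd, smul_eq_mul, real_inner_smul_left]
      ring
    rw [e2, inner_sub_right]
    have e3 : V.1 = -⟪V.2.1, η⟫ - V.2.2 * ‖η‖ ^ 2 := by linarith
    rw [e3]
    ring
  rw [e1, abs_mul, abs_mul, abs_of_pos (inv_pos.2 hV0), abs_two]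
  have h1 : |⟪V.2.1, e - η⟫| ≤ ‖V‖ * (103 / K₁) :=
    (abs_real_inner_le_norm _ _).trans (mul_le_mul (norm_y_le V) h (norm_nonneg _) hV0.le)
  have h2 : |‖e‖ ^ 2 - ‖η‖ ^ 2| ≤ 109 * (103 / K₁) := by
    have e4 : ‖e‖ ^ 2 - ‖η‖ ^ 2 = (‖e‖ + ‖η‖) * (‖e‖ - ‖η‖) := by ring
    rw [e4, abs_mul]
    have h3 : |‖e‖ - ‖η‖| ≤ 103 / K₁ := (abs_norm_sub_norm_le e η).trans h
    have h4 : |‖e‖ + ‖η‖| ≤ 109 := by
      rw [abs_of_nonneg (by positivity)]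
      linarith
    exact mul_le_mul h4 h3 (abs_nonneg _) (by norm_num)
  have h3 : |V.2.2 * (‖e‖ ^ 2 - ‖η‖ ^ 2)| ≤ ‖V‖ * (109 * (103 / K₁)) := by
    rw [abs_mul]
    exact mul_le_mul (norm_w_le V) h2 (abs_nonneg _) hV0.le
  have h4 : |⟪V.2.1, e - η⟫ + V.2.2 * (‖e‖ ^ 2 - ‖η‖ ^ 2)| ≤ ‖V‖ * (110 * (103 / K₁)) := by
    refine (abs_add_le _ _).trans ?_
    have : ‖V‖ * (110 * (103 / K₁)) = ‖V‖ * (103 / K₁) + ‖V‖ * (109 * (103 / K₁)) := by ring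
    rw [this]
    exact add_le_add h1 h3
  have h5 := mul_le_mul_of_nonneg_left h4 (inv_pos.2 hV0).le
  have h6 : ‖V‖⁻¹ * (‖V‖ * (110 * (103 / K₁))) = 110 * (103 / K₁) := by
    rw [← mul_assoc, inv_mul_cancel₀ hV0.ne', one_mul]
  rw [h6] at h5
  have h7 : (22660 : ℝ) / K₁ = 2 * (110 * (103 / K₁)) := by ring
  rw [h7]
  linarith

/-- the planks of a point in a larger disc -/
theorem big_disc {Cc : ℝ} (hCc : 0 ≤ Cc)
    (hCIR : ∀ (K r : ℝ) (x : E 2) (V : Z 2) (T : Finset (Fin 2 → ℤ)), 1 ≤ K → 0 ≤ r → V ≠ 0 →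
      (∀ t ∈ T, ‖ctr K⁻¹ t - x‖ ≤ r ∧ ∃ η ∈ CirZ V, ‖ctr K⁻¹ t - η‖ ≤ 3 / K) →
      (T.card : ℝ) ≤ Cc * (r * K + 1))
    {ρ D K₁ s : ℝ} (hρ : 0 < ρ) (hD : 0 ≤ D) (hK : 1 ≤ K₁) (hs : 101 / K₁ ≤ s) {V : Z 2}
    (hV : V ≠ 0) (η₀ : E 2) (Q : Finset Tp)
    (hnear : ∀ p ∈ Q, ‖ea ρ p - η₀‖ ≤ s)
    (htag : ∀ p ∈ Q, ‖ea ρ p - ctr K₁⁻¹ p.1‖ ≤ 100 / K₁) (hcir : ∀ p ∈ Q, NC K₁ V p)
    (hdeg : ∀ t, ((Q.filter fun p => p.1 = t).card : ℝ) ≤ D * ρ / K₁) :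
    (Q.card : ℝ) ≤ 2 * Cc * D * s * ρ := by
  have hK0 : 0 < K₁ := by linarith
  have hs0 : 0 ≤ s := le_trans (by positivity) hs
  have h1 := card_fib Q (fun p => p.1) (D * ρ / K₁) fun t _ => hdeg t
  have h2 : ((Q.image fun p => p.1).card : ℝ) ≤ Cc * ((s + 100 / K₁) * K₁ + 1) := by
    refine hCIR K₁ (s + 100 / K₁) η₀ V _ hK (by positivity) hV ?_
    intro t ht
    obtain ⟨p, hp, rfl⟩ := Finset.mem_image.1 ht
    refine ⟨?_, hcir p hp⟩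
    have h3 := htag p hp
    rw [norm_sub_rev] at h3
    have h4 := hnear p hp
    have h5 := norm_sub_le_norm_sub_add_norm_sub (ctr K₁⁻¹ p.1) (ea ρ p) η₀
    linarith
  have h3 : (s + 100 / K₁) * K₁ + 1 ≤ 2 * (s * K₁) := by
    have h4 : (s + 100 / K₁) * K₁ + 1 = s * K₁ + 101 := by
      field_simp
      ring
    have h5 : 101 ≤ s * K₁ := by
      rw [div_le_iff₀ hK0] at hs
      exact hs
    rw [h4]
    linarith
  have h6 : 0 ≤ D * ρ / K₁ := by positivity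
  refine h1.trans ((mul_le_mul_of_nonneg_left (h2.trans (mul_le_mul_of_nonneg_left h3 hCc))
    h6).trans (le_of_eq ?_))
  field_simp

theorem mem_PC {P : Finset Tp} {I : Z 2 → Tp → Prop} {η : Tp → E 2} {z : Z 2} {η₀ : E 2} {s : ℝ}
    {p : Tp} : p ∈ PC P I η z η₀ s ↔ p ∈ P ∧ I z p ∧ ‖η p - η₀‖ ≤ s := by
  classical
  unfold PC
  rw [Finset.mem_filter]

theorem mem_PZ {P : Finset Tp} {I : Z 2 → Tp → Prop} {z : Z 2} {p : Tp} :
    p ∈ PZ P I z ↔ p ∈ P ∧ I z p := by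
  classical
  unfold PZ
  rw [Finset.mem_filter]

theorem mem_XP {X : Finset (Z 2)} {I : Z 2 → Tp → Prop} {z : Z 2} {p : Tp} :
    z ∈ XP X I p ↔ z ∈ X ∧ I z p := by
  classical
  unfold XP
  rw [Finset.mem_filter]

theorem pf_CNF (hCIR : T_CIR) (hSPN : T_SPN) (hCPN : T_CPN) (hLOA : Pool.Agent.H83.G.T_LOA)
    (hLOB : Pool.Agent.H83.G.T_LOB) : T_CNF := by
  classical
  obtain ⟨Cc, hCc, kC⟩ := hCIR
  obtain ⟨Cs, hCs, kS⟩ := hSPN
  obtain ⟨C, hC⟩ : ∃ C : ℝ, C = 24010000 * Cs + 2 * Cc + 4 * 133 ^ 4 + 22660 := ⟨_, rfl⟩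
  refine ⟨C, by rw [hC]; linarith, ?_⟩
  intro β G h D D₁ ρ K₁ B X P I hD hK hKρ hF hE hH hD1 hB hD2
  have hD0 : 0 < D := by linarith
  have hK0 : 0 < K₁ := by linarith
  have hρ1 : 1 ≤ ρ := hK.trans hKρ
  have hρ : 0 < ρ := by linarith
  have hC1 : 1 ≤ C := by rw [hC]; linarith
  have hC0 : 0 < C := by linarith
  have hD6 : D ≤ D ^ 6 := le_self_pow₀ hD (by norm_num)
  have hD46 : D ^ 4 ≤ D ^ 6 := pow_le_pow_right₀ hD (by norm_num)
  have hD60 : 0 < D ^ 6 := by positivity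
  have b1 : 24010000 * Cs * D ^ 4 ≤ D₁ := by
    refine le_trans ?_ hD1
    exact mul_le_mul (by rw [hC]; linarith) hD46 (by positivity) hC0.le
  have b2 : 2 * Cc * D ≤ D₁ := by
    refine le_trans ?_ hD1
    exact mul_le_mul (by rw [hC]; linarith) hD6 (by positivity) hC0.le
  have b3 : 4 * 133 ^ 4 * D ^ 6 ≤ D₁ :=
    le_trans (mul_le_mul_of_nonneg_right (by rw [hC]; linarith) hD60.le) hD1
  have hρi : ρ⁻¹ ≤ 1 := inv_le_one_of_one_le₀ hρ1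
  have hρi0 : 0 < ρ⁻¹ := inv_pos.2 hρ
  -- two points of a plank
  have hlo : ∀ p ∈ P, ∀ z z' : Z 2, ∀ t : ℝ, ‖Lo (ea ρ p) ρ⁻¹ (z - z')‖ ≤ t →
      ‖z - z'‖ ≤ 16 * ρ ^ 2 * t := by
    intro p hp z z' t ht
    have h1 := (hLOB 2 3 (by norm_num)).2.1 (ea ρ p) ρ⁻¹ (z - z') (hF.eta p hp) hρi0 hρi
    rw [inv_inv] at h1
    refine h1.trans ?_
    have h2 : ((1 : ℝ) + 3) ^ 2 * ρ ^ 2 = 16 * ρ ^ 2 := by norm_num
    rw [h2]
    exact mul_le_mul_of_nonneg_left ht (by positivity)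
  have h2D : ∀ p ∈ P, ∀ z ∈ X, ∀ z' ∈ X, I z p → I z' p →
      ‖Lo (ea ρ p) ρ⁻¹ (z - z')‖ ≤ 2 * D := by
    intro p hp z hz z' hz' hI hI'
    have h1 := hE.rel z hz p hp hI
    have h2 := hE.rel z' hz' p hp hI'
    have h3 : z - z' = (z - p.2.2) - (z' - p.2.2) := by abel
    rw [h3, ((hLOA 2).1 _ _ _ _).2.1]
    exact (norm_sub_le _ _).trans (by linarith)
  -- the cells
  obtain ⟨σ, hσ⟩ : ∃ σ : ℝ, σ = ρ ^ 2 / 2 := ⟨_, rfl⟩
  have hσ0 : 0 < σ := by rw [hσ]; positivity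
  obtain ⟨n, hn⟩ : ∃ n : ℕ, n = ⌈65 * D⌉₊ := ⟨_, rfl⟩
  have hn1 : 65 * D ≤ n := by rw [hn]; exact Nat.le_ceil _
  have hn2 : (n : ℝ) < 65 * D + 1 := by rw [hn]; exact Nat.ceil_lt_add_one (by positivity)
  obtain ⟨m, hm⟩ : ∃ m : ℕ, m = (2 * n + 1) ^ 4 := ⟨_, rfl⟩
  have hm1 : (m : ℝ) ≤ 133 ^ 4 * D ^ 4 := by
    rw [hm, ← mul_pow]
    push_cast
    exact pow_le_pow_left₀ (by positivity) (by linarith) 4
  have hm0 : 0 < (m : ℝ) := by
    rw [hm]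
    positivity
  have hcell : ∀ p ∈ P, ((X.filter fun z => I z p).image (cb σ)).card ≤ m := by
    intro p hp
    rw [hm]
    refine cells_card (M := 64 * D) hσ0 n (by linarith) _ ?_
    intro z hz z' hz'
    obtain ⟨a1, a2⟩ := Finset.mem_filter.1 hz
    obtain ⟨b1, b2⟩ := Finset.mem_filter.1 hz'
    refine (hlo p hp z z' _ (h2D p hp z a1 z' b1 a2 b2)).trans (le_of_eq ?_)
    rw [hσ]
    ring
  obtain ⟨α, hα⟩ : ∃ α : ℝ, α = ρ / (4 * D) := ⟨_, rfl⟩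
  obtain ⟨b, hb⟩ : ∃ b : ℝ, b = ρ ^ 4 / (4 * D * m) := ⟨_, rfl⟩
  have hα0 : 0 < α := by rw [hα]; positivity
  have hb0 : 0 < b := by rw [hb]; positivity
  have heg : α * X.card + b * m * P.card < (eg I X P : ℝ) := by
    have e0 : (0 : ℝ) < eg I X P := Nat.cast_pos.2 hE.e0
    have e1 : α * X.card ≤ eg I X P / 4 := by
      have h1 : α * X.card = (ρ * X.card) / (4 * D) := by rw [hα]; ring
      rw [h1, div_le_iff₀ (by positivity)]
      exact hE.e2.trans (le_of_eq (by ring))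
    have e2 : b * m * P.card ≤ eg I X P / 4 := by
      have h1 : b * m * P.card = (P.card * ρ ^ 4) / (4 * D) := by
        rw [hb]
        field_simp
      rw [h1, div_le_iff₀ (by positivity)]
      exact hE.e1.trans (le_of_eq (by ring))
    linarith
  obtain ⟨j, hj⟩ := block I α b hb0.le m X P (cb σ) (fun p hp =>
    (le_of_eq (congrArg Finset.card (Finset.ext fun q => by
      simp only [Finset.mem_image, Finset.mem_filter]))).trans (hcell p hp)) heg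
  obtain ⟨Xj, hXj⟩ : ∃ Xj, Xj = X.filter fun x => cb σ x = j := ⟨_, rfl⟩
  obtain ⟨Pj, hPj⟩ : ∃ Pj, Pj = P.filter fun p => ∃ x ∈ X, cb σ x = j ∧ I x p := ⟨_, rfl⟩
  have hj1 : α * Xj.card + b * Pj.card < (eg I Xj Pj : ℝ) := by
    have hfi : ∀ (A : Type) (s : Finset A) (q : A → Prop) (i1 i2 : DecidablePred q),
        @Finset.filter A q i1 s = @Finset.filter A q i2 s := by
      intro A s q i1 i2
      ext x
      simp only [Finset.mem_filter]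
    rw [hXj, hPj]
    rw [hfi _ X (fun x => cb σ x = j) _ (fun x => Classical.propDecidable _),
      hfi _ P (fun p => ∃ x ∈ X, cb σ x = j ∧ I x p) _ (fun x => Classical.propDecidable _)]
    rw [hfi _ X (fun x => cb σ x = j) _ (fun x => Classical.propDecidable _),
      hfi _ P (fun p => ∃ x ∈ X, cb σ x = j ∧ I x p) _ (fun x => Classical.propDecidable _)] at hj
    exact hj
  have hXjm : ∀ z ∈ Xj, z ∈ X ∧ cb σ z = j := by
    intro z hz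
    rw [hXj] at hz
    exact Finset.mem_filter.1 hz
  have hPjs : Pj ⊆ P := by
    rw [hPj]
    exact Finset.filter_subset _ _
  -- the circles
  have hVe : ∀ z : Z 2, ∃ V : Z 2, z ∈ X → V ≠ 0 ∧ ((Pj.filter fun p => I z p).card : ℝ) ≤
      D * ((Pj.filter fun p => I z p ∧ NC K₁ V p).card : ℝ) := by
    intro z
    by_cases hz : z ∈ X
    · obtain ⟨V, hV1, hV2⟩ := circle_choice (J := fun p => I z p) hD0.le (hE.top z hz) Pj hPjs
      exact ⟨V, fun _ => ⟨hV1, hV2⟩⟩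
    · exact ⟨0, fun h => absurd h hz⟩
  choose V hV using hVe
  obtain ⟨I₁, hI₁⟩ : ∃ I₁ : Z 2 → Tp → Prop, I₁ = fun z p => I z p ∧ NC K₁ (V z) p := ⟨_, rfl⟩
  have hI₁m : ∀ z p, I₁ z p ↔ I z p ∧ NC K₁ (V z) p := by
    intro z p
    rw [hI₁]
  have heg1 : (eg I Xj Pj : ℝ) ≤ D * (eg I₁ Xj Pj : ℝ) := by
    rw [eg_eq_sum, eg_eq_sum, Nat.cast_sum, Nat.cast_sum, Finset.mul_sum]
    refine Finset.sum_le_sum fun z hz => ?_
    refine (hV z (hXjm z hz).1).2.trans (le_of_eq ?_)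
    congr 2
    refine congrArg Finset.card ?_
    ext p
    simp only [Finset.mem_filter, hI₁m]
  have hprem : α / D * Xj.card + b / D * Pj.card < (eg I₁ Xj Pj : ℝ) := by
    have h1 : α / D * Xj.card + b / D * Pj.card = (α * Xj.card + b * Pj.card) / D := by ring
    rw [h1, div_lt_iff₀ hD0]
    linarith
  obtain ⟨X₁, hX₁, P₁, hP₁, hne, hdx, hdp⟩ := prune I₁ (α / D) (b / D) _ Xj Pj rfl hprem
  have hαD : 0 < α / D := by positivity
  have hbD : 0 < b / D := by positivity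
  have hX₁n : X₁.Nonempty := by
    by_contra h0
    rw [Finset.not_nonempty_iff_eq_empty] at h0
    rw [h0] at hne
    have h1 : (eg I₁ (∅ : Finset (Z 2)) P₁ : ℝ) = 0 := by
      rw [eg_eq_sum, Finset.sum_empty, Nat.cast_zero]
    rw [h1, Finset.card_empty] at hne
    have h2 : (0 : ℝ) ≤ b / D * P₁.card := by positivity
    simp only [Nat.cast_zero, mul_zero, zero_add] at hne
    linarith
  obtain ⟨z₀, hz₀⟩ := hX₁n
  have hX₁X : ∀ z ∈ X₁, z ∈ X := fun z hz => (hXjm z (hX₁ hz)).1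
  have hP₁P : P₁ ⊆ P := hP₁.trans hPjs
  have hclose : ∀ z ∈ X₁, ‖z - z₀‖ ≤ ρ ^ 2 := by
    intro z hz
    have h1 := cell_close hσ0 ((hXjm z (hX₁ hz)).2.trans (hXjm z₀ (hX₁ hz₀)).2.symm)
    rw [hσ] at h1
    linarith
  obtain ⟨X', hX'⟩ : ∃ X' : Finset (Z 2), X' = X₁.image fun z => z - z₀ := ⟨_, rfl⟩
  have hX'm : ∀ z, z ∈ X' → z + z₀ ∈ X₁ := by
    intro z hz
    rw [hX'] at hz
    obtain ⟨y, hy, rfl⟩ := Finset.mem_image.1 hz
    rw [sub_add_cancel]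
    exact hy
  have hX'i : ∀ z ∈ X₁, z - z₀ ∈ X' := by
    intro z hz
    rw [hX']
    exact Finset.mem_image_of_mem _ hz
  -- every plank of `P₁` has a point
  have hpt : ∀ p ∈ P₁, ∃ z ∈ X₁, I₁ z p := by
    intro p hp
    have h1 := hdp p hp
    have h2 : 0 < (X₁.filter fun x => I₁ x p).card := by
      have : (0 : ℝ) < ((X₁.filter fun x => I₁ x p).card : ℝ) := hbD.trans_le h1
      exact_mod_cast this
    obtain ⟨z, hz⟩ := Finset.card_pos.1 h2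
    exact ⟨z, (Finset.mem_filter.1 hz).1, (Finset.mem_filter.1 hz).2⟩
  obtain ⟨I', hI'⟩ : ∃ I' : Z 2 → Tp → Prop, ∀ z p, I' z p ↔ I₁ (z + z₀) p ∧ z + z₀ ∈ X₁ :=
    ⟨fun z p => I₁ (z + z₀) p ∧ z + z₀ ∈ X₁, fun _ _ => Iff.rfl⟩
  have hI'I : ∀ z p, I' z p → I (z + z₀) p := fun z p h => ((hI₁m _ _).1 ((hI' z p).1 h).1).1
  have hI'N : ∀ z p, I' z p → NC K₁ (V (z + z₀)) p := fun z p h =>
    ((hI₁m _ _).1 ((hI' z p).1 h).1).2
  have hI'i : ∀ z ∈ X₁, ∀ p, I₁ z p → I' (z - z₀) p := by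
    intro z hz p hp
    rw [hI', sub_add_cancel]
    exact ⟨hp, hz⟩
  refine ⟨z₀, X', P₁, I', ⟨z₀ - z₀, hX'i z₀ hz₀⟩, hP₁P,
    ⟨z₀, hX₁X z₀ hz₀, by rw [sub_self, norm_zero]; positivity⟩, ?_, ?_, ?_⟩
  · intro z hz
    exact ⟨hX₁X _ (hX'm z hz), fun p _ hp => hI'I z p hp⟩
  · intro p hp
    obtain ⟨z, hz, hzp⟩ := hpt p hp
    exact ⟨z - z₀, hX'i z hz, hI'i z hz p hzp⟩
  have hKC : (K₁ / C)⁻¹ = C / K₁ := inv_div _ _
  refine
    { one_le_D := ?_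
      D_le_K := ?_
      K_le := ?_
      sep := ?_
      ball := ?_
      eta := fun p hp => hF.eta p (hP₁P hp)
      h0 := ?_
      h1 := ?_
      h2 := ?_
      h3 := ?_
      h4 := ?_
      h5 := ?_
      h6 := ?_ }
  · exact (one_le_mul_of_one_le_of_one_le hC1 (one_le_pow₀ hD)).trans hD1
  · rw [le_div_iff₀ hC0, mul_comm]
    exact hD2
  · rw [div_le_iff₀ hC0]
    exact hKρ.trans (le_mul_of_one_le_right hρ.le hC1)
  · intro z hz z' hz' hne'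
    have h1 := hE.sep (z + z₀) (hX₁X _ (hX'm z hz)) (z' + z₀) (hX₁X _ (hX'm z' hz'))
      (fun h => hne' (add_right_cancel h))
    rwa [add_sub_add_right_eq_sub] at h1
  · intro z hz
    have h1 := hclose _ (hX'm z hz)
    rwa [add_sub_cancel_right] at h1
  · intro p hp z hz z' hz' hIz hIz'
    have h1 := h2D p (hP₁P hp) _ (hX₁X _ (hX'm z hz)) _ (hX₁X _ (hX'm z' hz'))
      (hI'I z p hIz) (hI'I z' p hIz')
    rw [add_sub_add_right_eq_sub] at h1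
    exact h1.trans (le_trans (mul_le_mul_of_nonneg_right (by linarith) hD0.le) b2)
  · intro z hz η₀
    refine le_trans ?_ b1
    have hz1 := hX'm z hz
    refine small_disc kS hCPN hLOA hρ hD (by linarith) hK0 (z + z₀) η₀ _ ?_ ?_ ?_ ?_
    · intro p hp
      obtain ⟨a1, a2, a3⟩ := mem_PC.1 hp
      exact hE.rel _ (hX₁X _ hz1) p (hP₁P a1) (hI'I z p a2)
    · intro p hp
      exact (mem_PC.1 hp).2.2
    · intro p hp
      exact hF.tag p (hP₁P (mem_PC.1 hp).1)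
    · intro p hp p' hp'
      exact hF.sepP p (hP₁P (mem_PC.1 hp).1) p' (hP₁P (mem_PC.1 hp').1)
  · intro z hz
    have hz1 := hX'm z hz
    have h1 := hdx _ hz1
    have h2 : PZ P₁ I' z = P₁.filter fun p => I₁ (z + z₀) p := by
      ext p
      rw [mem_PZ, Finset.mem_filter, hI']
      exact ⟨fun h => ⟨h.1, h.2.1⟩, fun h => ⟨h.1, h.2, hz1⟩⟩
    rw [h2]
    have h3 : ρ = 4 * D ^ 2 * (α / D) := by
      rw [hα]
      field_simp
    have h4 : 4 * D ^ 2 ≤ D₁ := by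
      refine le_trans ?_ b3
      have h5 : D ^ 2 ≤ D ^ 6 := pow_le_pow_right₀ hD (by norm_num)
      exact mul_le_mul (by norm_num) h5 (by positivity) (by norm_num)
    calc ρ = 4 * D ^ 2 * (α / D) := h3
      _ ≤ D₁ * ((P₁.filter fun p => I₁ (z + z₀) p).card : ℝ) :=
        mul_le_mul h4 h1 hαD.le (le_trans (by positivity) h4)
  · intro p hp
    have h1 := hdp p hp
    have h2 : (X₁.filter fun x => I₁ x p).card ≤ (XP X' I' p).card := by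
      rw [← Finset.card_image_of_injective (X₁.filter fun x => I₁ x p)
        (sub_left_injective (b := z₀))]
      refine Finset.card_le_card ?_
      intro y hy
      obtain ⟨z, hz, rfl⟩ := Finset.mem_image.1 hy
      obtain ⟨a1, a2⟩ := Finset.mem_filter.1 hz
      exact mem_XP.2 ⟨hX'i z a1, hI'i z a1 p a2⟩
    have h3 : ρ ^ 4 = 4 * D ^ 2 * m * (b / D) := by
      rw [hb]
      field_simp
    have h4 : 4 * D ^ 2 * m ≤ D₁ := by
      refine le_trans ?_ b3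
      have h5 := mul_le_mul_of_nonneg_left hm1 (by positivity : (0 : ℝ) ≤ 4 * D ^ 2)
      refine h5.trans (le_of_eq ?_)
      ring
    calc ρ ^ 4 = 4 * D ^ 2 * m * (b / D) := h3
      _ ≤ D₁ * ((XP X' I' p).card : ℝ) :=
        mul_le_mul h4 (h1.trans (Nat.cast_le.2 h2)) hbD.le (le_trans (by positivity) h4)
  · intro z hz η₀ s hs
    have hz1 := hX'm z hz
    rw [hKC] at hs
    have hs5 : 101 / K₁ ≤ s := by
      refine le_trans ?_ hs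
      rw [div_le_div_iff_of_pos_right hK0, hC]
      linarith
    have hs0 : 0 ≤ s := le_trans (by positivity) hs5
    have h1 : ((PC P₁ I' (ea ρ) z η₀ s).card : ℝ) ≤ 2 * Cc * D * s * ρ := by
      refine big_disc (by linarith) kC hρ hD0.le hK hs5 (hV (z + z₀) (hX₁X _ hz1)).1 η₀ _
        ?_ ?_ ?_ ?_
      · intro p hp
        exact (mem_PC.1 hp).2.2
      · intro p hp
        exact hF.tag p (hP₁P (mem_PC.1 hp).1)
      · intro p hp
        exact hI'N z p (mem_PC.1 hp).2.1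
      · intro t
        refine le_trans (Nat.cast_le.2 (Finset.card_le_card ?_)) (hE.deg (z + z₀) (hX₁X _ hz1) t)
        intro p hp
        obtain ⟨a1, a2⟩ := Finset.mem_filter.1 hp
        obtain ⟨a3, a4, a5⟩ := mem_PC.1 a1
        exact Finset.mem_filter.2 ⟨hP₁P a3, hI'I z p a4, a2⟩
    refine h1.trans ?_
    have h2 : 2 * Cc * D * s * ρ = 2 * Cc * D * (s * ρ) := by ring
    have h3 : D₁ * s * ρ = D₁ * (s * ρ) := by ring
    rw [h2, h3]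
    exact mul_le_mul_of_nonneg_right b2 (by positivity)
  · intro z hz
    have hz1 := hX'm z hz
    have hV0 := (hV (z + z₀) (hX₁X _ hz1)).1
    refine ⟨‖V (z + z₀)‖⁻¹ • V (z + z₀), ?_, ?_⟩
    · rw [norm_smul, norm_inv, norm_norm, inv_mul_cancel₀ (norm_ne_zero_iff.2 hV0)]
    · intro p hp hI
      obtain ⟨η, hη, hηn⟩ := hI'N z p hI
      have h1 := hF.tag p (hP₁P hp)
      have h2 := norm_sub_le_norm_sub_add_norm_sub (ea ρ p) (ctr K₁⁻¹ p.1) η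
      have h3 : ‖ea ρ p - η‖ ≤ 103 / K₁ := by
        refine h2.trans ((add_le_add h1 hηn).trans (le_of_eq ?_))
        ring
      refine (plane_near hK hV0 (hF.eta p (hP₁P hp)) hη h3).trans ?_
      rw [hKC, div_le_div_iff_of_pos_right hK0, hC]
      linarith
  · have h1 := hH z₀ ⟨z₀, hX₁X z₀ hz₀, by rw [sub_self, norm_zero]; positivity⟩ P₁ hP₁P (by
      intro p hp
      obtain ⟨z, hz, hzp⟩ := hpt p hp
      have h2 := hE.rel z (hX₁X z hz) p (hP₁P hp) ((hI₁m _ _).1 hzp).1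
      have h3 := hlo p (hP₁P hp) z p.2.2 D h2
      have h4 := hclose z hz
      have h5 := norm_sub_le_norm_sub_add_norm_sub p.2.2 z z₀
      rw [norm_sub_rev p.2.2 z] at h5
      have h6 : ρ ^ 2 ≤ D * ρ ^ 2 := le_mul_of_one_le_left (sq_nonneg ρ) hD
      have h7 : 16 * ρ ^ 2 * D = 16 * (D * ρ ^ 2) := by ring
      have h8 : 100 * D * ρ ^ 2 = 100 * (D * ρ ^ 2) := by ring
      rw [h7] at h3
      rw [h8]
      have h9 : 0 ≤ D * ρ ^ 2 := by positivity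
      linarith)
    refine h1.trans (mul_le_mul_of_nonneg_right hB (by positivity))

end Pool.Agent.H83.D3N.CNFc
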