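import Pool.Agent.H83.D3N.Fin
import Pool.Agent.H81.D3.CHS
import Pool.Agent.H88.B2.All

/-!
MP_ee74d2_an, dimension 3, exponents below `10/3`: closed form.
-/

set_option autoImplicit false

namespace Pool.Agent.H83.D3N.Closed

/-- Q1 in dimension 3 for all `p ≥ p₀`, with some `p₀ < 10/3` -/
theorem q1 : ∃ p₀ : ℝ, p₀ < 10 / 3 ∧ ∀ p : ℝ, p₀ ≤ p → Pool.Agent.H81.GT.Q1at 2 p :=
  Fin.fin_of Pool.Agent.H81.D3.CHS.pf_CHS
    (Pool.Agent.H82.LB.Chain.b_LEMN Pool.Agent.H88.B2.All.b2)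

end Pool.Agent.H83.D3N.Closed
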