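import Pool.Agent.H83.D3N.OBC
import Pool.Agent.H50.D3.BA2
import Pool.Agent.H81.D3.CHN
import Pool.Agent.H45.D3.CIR
import Pool.Agent.H19.D3.CLW
import Pool.Agent.H68.D3.CMP
import Pool.Agent.H19.D3.CTG
import Pool.Agent.H37.D3.DCX
import Pool.Agent.H33.D3.GCE
import Pool.Agent.H1.D3.GSA
import Pool.Agent.H50.D3.GSB
import Pool.Agent.H98.D3.GSC
import Pool.Agent.H94.D3.GSE
import Pool.Agent.H17.D3.GSN
import Pool.Agent.H60.D3.GST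
import Pool.Agent.H94.D3.LNC
import Pool.Agent.H69.D3.LRW
import Pool.Agent.H27.D3.MON
import Pool.Agent.H38.D3.NFI
import Pool.Agent.H33.D3.NRW
import Pool.Agent.H45.D3.NSA
import Pool.Agent.H97.D3.NST
import Pool.Agent.H38.D3.PAM
import Pool.Agent.H45.D3.PTS
import Pool.Agent.H12.D3.RSE
import Pool.Agent.H60.D3.ST0
import Pool.Agent.H68.D3.TEC
import Pool.Agent.H23.D3.TOP
import Pool.Agent.H45.D3.TRC
import Pool.Agent.H94.D3.TST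
import Pool.Agent.H81.D3.WLT
import Pool.Agent.H82.LB.Chain1
import Pool.Agent.H82.G4.Chain4
import Pool.Agent.H92.EZ.WL
import Pool.Agent.H48.G.GL2

/-!
MP_ee74d2_an, dimension 3, exponents below `10/3`: assembly of the chain.
-/

set_option autoImplicit false

namespace Pool.Agent.H83.D3N.Fin

open Pool.Agent.H83.G Pool.Agent.H83.G.Chain Pool.Agent.H81.D3

theorem f_MON : T_MON := Pool.Agent.H27.D3.pf_MON
theorem f_CIR : Pool.Agent.H81.D3.T_CIR := Pool.Agent.H45.D3.pf_CIR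
theorem f_CLW : T_CLW := Pool.Agent.H19.D3.pf_CLW
theorem f_CTG : T_CTG := Pool.Agent.H19.D3.pf_CTG
theorem f_GSE : T_GSE := Pool.Agent.H94.D3.pf_GSE
theorem f_TRC : T_TRC := Pool.Agent.H45.D3.pf_TRC
theorem f_TEC : T_TEC := Pool.Agent.H68.D3.pf_TEC
theorem f_LNC : T_LNC := Pool.Agent.H94.D3.pf_LNC
theorem f_CMP : T_CMP := Pool.Agent.H68.D3.pf_CMP m_LOA m_LOB m_PUS
theorem f_RSE : T_RSE := Pool.Agent.H12.D3.pf_RSE m_LOA m_LOI m_SCL m_CPS m_PUB m_RSC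
theorem f_GCE : T_GCE := Pool.Agent.H33.D3.pf_GCE m_LOI m_CPS m_PUS
theorem f_GSA : T_GSA := Pool.Agent.H1.D3.pf_GSA f_RSE f_GCE f_CTG
theorem f_GSB : T_GSB := Pool.Agent.H50.D3.pf_GSB f_RSE f_GCE f_CTG
theorem f_BA2 : T_BA2 := Pool.Agent.H50.D3.pf_BA2 m_SPW m_PLN
theorem f_PTS : T_PTS := Pool.Agent.H45.D3.pf_PTS m_LOI m_LOB m_LOA m_WT3
theorem f_LRW : T_LRW := Pool.Agent.H69.D3.pf_LRW f_RSE f_GCE f_CTG f_BA2 f_PTS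
theorem f_NFI : T_NFI := Pool.Agent.H38.D3.pf_NFI m_PUS
theorem f_DCX : T_DCX := Pool.Agent.H37.D3.pf_DCX m_PUS m_SPK m_SCH m_WT3 m_CPS m_TLS
theorem f_NRW : T_NRW :=
  Pool.Agent.H33.D3.pf_NRW Pool.Agent.H82.G4.Chain.k_SIG m_PUS m_LOI m_LOB m_WT2
theorem f_NSA : T_NSA := Pool.Agent.H45.D3.pf_NSA f_DCX f_NFI f_NRW f_CIR f_CLW m_TLS m_AMU
theorem f_NST : T_NST := Pool.Agent.H97.D3.NST.pf_NST f_NSA f_NFI f_CLW
  (m_RDP Pool.Agent.H93.BD.All.main) m_MSB m_TLS m_PSX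
theorem f_PAM : T_PAM := Pool.Agent.H38.D3.pf_PAM m_WM f_RSE f_CMP m_SPK m_PUB m_LOA m_LOI m_WT1
  m_WT2 m_SCH m_CPS
theorem f_GSN : T_GSN := Pool.Agent.H17.D3.pf_GSN f_NST f_RSE f_GSA f_PTS
theorem f_GSC : T_GSC := Pool.Agent.H98.D3.pf_GSC f_PAM f_CMP f_NFI f_PTS
theorem f_GST : T_GST := Pool.Agent.H60.D3.pf_GST f_GSN f_GSC f_GSB f_GSE f_MON
theorem f_ST0 : T_ST0 := Pool.Agent.H60.D3.pf_ST0 m_PUS f_RSE f_CMP f_PTS m_CPS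
theorem f_TOP : T_TOP := Pool.Agent.H23.D3.pf_TOP f_ST0 f_GST f_TRC f_CMP f_PTS f_MON
theorem f_TST : T_TST := Pool.Agent.H94.D3.pf_TST f_GST f_CMP f_MON

theorem f_OBT : T_OBT := obt_closed f_RSE f_CMP f_GSB

/-- the chain -/
theorem f_CHN (hCHS : T_CHS) : T_CHN :=
  Pool.Agent.H81.D3.CHN.pf_CHN f_TOP f_TST hCHS f_LRW f_BA2 f_MON

section

open Pool.Agent.H81.GT

theorem f_CLS : Pool.Agent.H81.GT.T_CLS := by
  have hACS : T_ACS := Pool.Agent.H34.G.ACS.pf_ACS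
  have hCOV : T_COV := Pool.Agent.H56.G.COV.pf_COV
  have hSUB : T_SUB := Pool.Agent.H70.G.SUB.pf_SUB
  have hPIE : T_PIE := Pool.Agent.H35.G.PIE.pf_PIE hSUB Pool.Agent.H83.LS.Chain.kbv hACS
  have hPKB : T_PKB := Pool.Agent.H33.G.pf_PKB hPIE hACS
  have hPOW : T_POW := Pool.Agent.H59.G.pf_POW
  have hREP : T_REP := Pool.Agent.H33.G.pf_REP hCOV
  have hTAI : T_TAI := Pool.Agent.H49.G.TAI.pf_TAI hPKB hPOW
  have hTRP : T_TRP := Pool.Agent.H34.G.TRP.pf_TRP hPOW m_LOA m_LOB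
  have hVOL : T_VOL := Pool.Agent.H1.G.VOL.pf_VOL
  have hSHP : T_SHP := pf_SHP hCOV hACS hTAI hTRP hVOL Pool.Agent.H83.LS.Chain.ple m_LOA m_LOB
  exact pf_CLS hREP hACS hSHP m_WM m_AVG m_LOA m_LOB m_SCH

end

/-- the level set estimate below `10/3` -/
theorem f_WLT (hCHS : T_CHS) (hLEMN : Pool.Agent.H82.LB.T_LEMN) :
    ∃ c₆ : ℝ, 0 < c₆ ∧ c₆ ≤ 1 / 12 ∧ ∀ x : ℝ, 4 / 3 - c₆ ≤ x → x ≤ 4 / 3 →
      Pool.Agent.H92.EZ.WLx 2 x :=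
  Pool.Agent.H81.D3.WLT.pf_WLT f_LNC f_TEC hLEMN Pool.Agent.H82.LB.Chain.b_T43 (f_CHN hCHS) f_OBT
    f_CLS m_SPK m_PUX

/-- Q1 in dimension 3 below `10/3` -/
theorem fin_of (hCHS : T_CHS) (hLEMN : Pool.Agent.H82.LB.T_LEMN) :
    ∃ p₀ : ℝ, p₀ < 10 / 3 ∧ ∀ p : ℝ, p₀ ≤ p → Pool.Agent.H81.GT.Q1at 2 p := by
  obtain ⟨c, hc, hc1, h⟩ := f_WLT hCHS hLEMN
  refine ⟨2 + (4 / 3 - c), by linarith, fun p hp => ?_⟩
  exact Pool.Agent.H92.EZ.q1_of_WLx (Pool.Agent.H48.G.pf_GL2 Pool.Agent.H56.G.COV.pf_COV) m_SPK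
    m_PUX m_SCH m_WM m_AVG m_LOA m_LOB le_rfl (by linarith) (h _ le_rfl (by linarith)) hp

end Pool.Agent.H83.D3N.Fin
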