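import Pool.Agent.H83.D3N.OBM
import Pool.Agent.H92.EZ.All

/-!
MP_ee74d2_an, dimension 3: one ball, closed.
-/

set_option autoImplicit false

namespace Pool.Agent.H83.D3N

open Pool.Agent.H81.D3 (T_RSE T_CMP T_GSB)

/-- one ball -/
theorem ob_closed : T_OB := ob_main Pool.Agent.H92.EZ.ez_main

/-- the end state of the chain is impossible for large `K₁` -/
theorem obt_closed (hRSE : T_RSE) (hCMP : T_CMP) (hGSB : T_GSB) : T_OBT :=
  OBT.pf_OBT ob_closed hRSE hCMP hGSB

end Pool.Agent.H83.D3N
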