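import Pool.Agent.H83.D3N.OBT
import Pool.Agent.H83.D3N.CNFc
import Pool.Agent.H74.D3N.CIR
import Pool.Agent.H11.D3N.SPN
import Pool.Agent.H42.D3N.CPN
import Pool.Agent.H4.D3N.EZS
import Pool.Agent.H63.D3N.H6
import Pool.Agent.H19.D3N.SPH
import Pool.Agent.H60.D3N.CEL
import Pool.Agent.H53.D3N.QCV
import Pool.Agent.H53.D3N.SHF
import Pool.Agent.H75.D3N.OB
import Pool.Agent.H91.EL.All
import Pool.Agent.H83.G.Chain

/-!
MP_ee74d2_an, dimension 3: one ball, assembly.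
-/

set_option autoImplicit false

namespace Pool.Agent.H83.D3N

open Pool.Agent.H81.D3 (T_RSE T_CMP T_GSB)

/-- one ball -/
theorem ob_main (hEZ : Pool.Agent.H92.EZ.T_EZ) : T_OB := by
  have hLOA := Pool.Agent.H83.G.Chain.m_LOA
  have hLOB := Pool.Agent.H83.G.Chain.m_LOB
  have hCIR : T_CIR := Pool.Agent.H74.D3N.CIR.pf_CIR
  have hSPN : T_SPN := Pool.Agent.H11.D3N.SPN.pf_SPN hLOA Pool.Agent.H91.EL.all_BOX
  have hCPN : T_CPN := Pool.Agent.H42.D3N.CPN.pf_CPN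
  have hCNF : T_CNF := Pool.Agent.H83.D3N.CNFc.pf_CNF hCIR hSPN hCPN hLOA hLOB
  have hEZS : T_EZS := Pool.Agent.H4.D3N.EZS.pf_EZS hEZ
  have hCEL : T_CEL := Pool.Agent.H60.D3N.CEL.pf_CEL
  have hQCV : T_QCV := Pool.Agent.H53.D3N.QCV.pf_QCV
  have hSHF : T_SHF := Pool.Agent.H53.D3N.SHF.pf_SHF
  have hH6 : T_H6 := Pool.Agent.H63.D3N.H6.pf_H6 hCEL hEZS
  have hSPH : T_SPH := Pool.Agent.H19.D3N.SPH.pf_SPH hCEL hEZS hQCV
  exact Pool.Agent.H75.D3N.OB.pf_OB Pool.Agent.H91.EL.end_lemma hH6 hSPH hCNF hSHF hLOB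

/-- the end state of the chain is impossible for large `K₁` -/
theorem obt_main (hEZ : Pool.Agent.H92.EZ.T_EZ) (hRSE : T_RSE) (hCMP : T_CMP) (hGSB : T_GSB) :
    T_OBT := OBT.pf_OBT (ob_main hEZ) hRSE hCMP hGSB

end Pool.Agent.H83.D3N
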