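import Pool.Agent.H83.D3N.CVT

/-!
MP_ee74d2_an, dimension 3: proof of `T_OBT` from `T_OB`.
-/

set_option autoImplicit false

namespace Pool.Agent.H83.D3N.OBT

open MeasureTheory Set
open scoped ENNReal NNReal RealInnerProductSpace
open Pool.Agent.H83.D3N
open Pool.Agent.H83.G (Z E TF TP Lo ctr IsPU Sep Cls Ks)
open Pool.Agent.H83.LS (BCd EE)
open Pool.Agent.H81.GT (tz SymE IsX Gf)
open Pool.Agent.H81.D3 (StT St En43 E43 Lc Gc Pq PSep PTag Qzt Cz T_RSE T_CMP T_GSB RS)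
open Pool.Agent.H82.LB (CirZ)

open scoped Classical in
/-- the packet of a plank -/
noncomputable def pull (w : ℕ) (p : Pq) : Tp :=
  (p.1, p.2.1, if h : ∃ y, Lc w p.2.1 y = p.2.2 then h.choose else 0)

/-- the plank of a packet -/
noncomputable def bk (w : ℕ) (p : Tp) : Pq := (p.1, p.2.1, Lc w p.2.1 p.2.2)

/-- incidences -/
def II (w : ℕ) (Q : Finset (Z 2 × Pq)) (z : Z 2) (p : Tp) : Prop := (z, bk w p) ∈ Q

theorem bk_pull (w : ℕ) (p : Pq) (h : ∃ y, Lc w p.2.1 y = p.2.2) : bk w (pull w p) = p := by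
  unfold bk pull
  simp only [dif_pos h]
  have := h.choose_spec
  rw [this]

theorem ea_eq (w : ℕ) (p : Tp) : ea (w : ℝ) p = ctr (w : ℝ)⁻¹ p.2.1 := rfl

theorem cz_cir (V : Z 2) : Cz V = CirZ V := by
  unfold Cz CirZ Pool.Agent.H83.G.ph Pool.Agent.H22.G4.nv
  ext η
  simp only [Set.mem_setOf_eq]
  rw [real_inner_comm]
  constructor <;> intro h <;> nlinarith [h]

open scoped Classical in
/-- the combinatorial part -/
theorem comb (w : ℕ) (X : Finset (Z 2)) (P : Finset Pq) (Q : Finset (Z 2 × Pq))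
    (hs : ∀ p ∈ P, ∃ y, Lc w p.2.1 y = p.2.2) (hQ : ∀ q ∈ Q, q.1 ∈ X ∧ q.2 ∈ P) :
    (∀ p' ∈ P.image (pull w), bk w p' ∈ P) ∧ (P.image (pull w)).card = P.card ∧
    Q.card ≤ eg (II w Q) X (P.image (pull w)) ∧
    ∀ z t, ((P.image (pull w)).filter fun p => II w Q z p ∧ p.1 = t).card ≤ (Qzt Q z t).card := by
  have h1 : ∀ p' ∈ P.image (pull w), bk w p' ∈ P ∧ pull w (bk w p') = p' := by
    intro p' hp'
    obtain ⟨p, hp, rfl⟩ := Finset.mem_image.1 hp'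
    rw [bk_pull w p (hs p hp)]
    exact ⟨hp, rfl⟩
  refine ⟨fun p' hp' => (h1 p' hp').1, ?_, ?_, ?_⟩
  · apply Finset.card_image_of_injOn
    intro p hp p' hp' h
    have e1 := bk_pull w p (hs p hp)
    have e2 := bk_pull w p' (hs p' hp')
    rw [← e1, ← e2, h]
  · unfold eg
    apply Finset.card_le_card_of_injOn (fun q => (q.1, pull w q.2))
    · intro q hq
      have hq' := hQ q hq
      rw [Finset.mem_coe, Finset.mem_filter, Finset.mem_product]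
      refine ⟨⟨hq'.1, Finset.mem_image_of_mem _ hq'.2⟩, ?_⟩
      show (q.1, bk w (pull w q.2)) ∈ Q
      rw [bk_pull w q.2 (hs q.2 hq'.2)]
      exact hq
    · intro q hq q' hq' h
      simp only [Prod.mk.injEq] at h
      have e1 := bk_pull w q.2 (hs q.2 (hQ q hq).2)
      have e2 := bk_pull w q'.2 (hs q'.2 (hQ q' hq').2)
      refine Prod.ext h.1 ?_
      rw [← e1, ← e2, h.2]
  · intro z t
    apply Finset.card_le_card_of_injOn (fun p => (z, bk w p))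
    · intro p hp
      rw [Finset.mem_coe, Finset.mem_filter] at hp
      unfold Qzt
      rw [Finset.mem_coe, Finset.mem_filter]
      exact ⟨hp.2.1, rfl, hp.2.2⟩
    · intro p hp p' hp' h
      rw [Finset.mem_coe, Finset.mem_filter] at hp hp'
      simp only [Prod.mk.injEq] at h
      rw [← (h1 p hp.1).2, ← (h1 p' hp'.1).2, h.2]

/-- numbers for e1 -/
theorem num1 (p w4 h e D q g : ℝ) (hh : 0 < h) (hq : 0 ≤ q) (hD : 1 ≤ D) (hg : g ≤ D) (hg0 : 0 ≤ g)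
    (h1 : p * w4 * h ≤ g * D * e) (h2 : e ≤ D * (q * h)) : p * w4 ≤ D ^ 4 * q := by
  have a1 : p * w4 * h ≤ (g * D * D * q) * h := by
    calc p * w4 * h ≤ g * D * e := h1
      _ ≤ g * D * (D * (q * h)) := by
          apply mul_le_mul_of_nonneg_left h2 (by positivity)
      _ = _ := by ring
  have a2 : p * w4 ≤ g * D * D * q := le_of_mul_le_mul_right a1 hh
  have a3 : g * D * D ≤ D ^ 4 := by
    calc g * D * D ≤ D * D * D := by gcongr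
      _ = D ^ 3 := by ring
      _ ≤ D ^ 4 := pow_le_pow_right₀ hD (by norm_num)
  calc p * w4 ≤ g * D * D * q := a2
    _ ≤ D ^ 4 * q := by gcongr

/-- numbers for e2 -/
theorem num2 (x w H H₀ D q g e : ℝ) (hH : 0 < H) (hH0 : 0 < H₀) (hw : 1 ≤ w) (hq : 0 ≤ q)
    (hD : 1 ≤ D) (hg : g ≤ D) (hg0 : 0 ≤ g)
    (h1 : x * H₀ ^ (10 / 3 : ℝ) ≤ g * e)
    (h2 : e ≤ D * (q * H ^ (10 / 3 : ℝ) * w ^ (2 / 3 : ℝ)))
    (h3 : H ^ 2 * w ≤ D * H₀ ^ 2) : w * x ≤ D ^ 4 * q := by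
  have hw0 : 0 < w := by linarith
  have hD0 : 0 < D := by linarith
  have b1 : H ^ (10 / 3 : ℝ) * w ^ (2 / 3 : ℝ) * w = (H ^ 2 * w) ^ (5 / 3 : ℝ) := by
    rw [Real.mul_rpow (by positivity) hw0.le, ← Real.rpow_natCast H 2, ← Real.rpow_mul hH.le,
      mul_assoc, ← Real.rpow_add_one hw0.ne']
    norm_num
  have b2 : (D * H₀ ^ 2) ^ (5 / 3 : ℝ) = D ^ (5 / 3 : ℝ) * H₀ ^ (10 / 3 : ℝ) := by
    rw [Real.mul_rpow hD0.le (by positivity), ← Real.rpow_natCast H₀ 2, ← Real.rpow_mul hH0.le]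
    norm_num
  have b3 : H ^ (10 / 3 : ℝ) * w ^ (2 / 3 : ℝ) * w ≤ D ^ 2 * H₀ ^ (10 / 3 : ℝ) := by
    rw [b1]
    calc (H ^ 2 * w) ^ (5 / 3 : ℝ) ≤ (D * H₀ ^ 2) ^ (5 / 3 : ℝ) :=
          Real.rpow_le_rpow (by positivity) h3 (by norm_num)
      _ = D ^ (5 / 3 : ℝ) * H₀ ^ (10 / 3 : ℝ) := b2
      _ ≤ D ^ (2 : ℝ) * H₀ ^ (10 / 3 : ℝ) := by
          gcongr
          norm_num
      _ = D ^ 2 * H₀ ^ (10 / 3 : ℝ) := by norm_cast
  have hp : 0 < H₀ ^ (10 / 3 : ℝ) := by positivity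
  have c1 : (w * x) * H₀ ^ (10 / 3 : ℝ) ≤ (D ^ 4 * q) * H₀ ^ (10 / 3 : ℝ) := by
    calc (w * x) * H₀ ^ (10 / 3 : ℝ) = w * (x * H₀ ^ (10 / 3 : ℝ)) := by ring
      _ ≤ w * (g * e) := by gcongr
      _ ≤ w * (g * (D * (q * H ^ (10 / 3 : ℝ) * w ^ (2 / 3 : ℝ)))) := by gcongr
      _ = g * D * q * (H ^ (10 / 3 : ℝ) * w ^ (2 / 3 : ℝ) * w) := by ring
      _ ≤ g * D * q * (D ^ 2 * H₀ ^ (10 / 3 : ℝ)) := by gcongr
      _ ≤ D * D * q * (D ^ 2 * H₀ ^ (10 / 3 : ℝ)) := by gcongr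
      _ = _ := by ring
  exact le_of_mul_le_mul_right c1 hp

open scoped Classical in
theorem pf_OBT (hOB : T_OB) (hRSE : T_RSE) (hCMP : T_CMP) (hGSB : T_GSB) : T_OBT := by
  obtain ⟨C₀, hOB⟩ := hOB
  obtain ⟨Cc, hCc, -, hCmp2, hCmp3, -⟩ := hCMP
  refine ⟨4 * C₀, ?_⟩
  intro κ δ ε L β a Xc χ hκ hsym hX hβ hL hδ hε
  obtain ⟨C1, hC1, hob⟩ := hOB κ δ β a Xc χ hκ hsym hX hβ hδ
  obtain ⟨C2, hC2, hrse⟩ := hRSE L β hβ
  obtain ⟨C3, hC3, hgsb⟩ := hGSB L β hL hβ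
  refine ⟨max (max C1 C3) 300, le_trans (by norm_num) (le_max_right _ _), ?_⟩
  intro Cb R A A' H₀ D D₂ H f X K₁ n w P Q hCR hf hA hAA hcls hCb hE hsep hXz hH0 hEn hSt hCD
    hn hnD hDD hwR hAR
  set G := Gf Xc R a f with hG
  set C := max (max C1 C3) 300 with hCdef
  have hC1C : C1 ≤ C := le_trans (le_max_left _ _) (le_max_left _ _)
  have hC3C : C3 ≤ C := le_trans (le_max_right _ _) (le_max_left _ _)
  have h300 : 300 ≤ C := le_max_right _ _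
  have hC : 1 ≤ C := by linarith
  have hR1 : 1 ≤ R := hC.trans hCR
  have hA' : 0 < A' := lt_of_lt_of_le hA hAA
  have hD1 : 1 ≤ D := hSt.D1
  have hD0 : 0 < D := by linarith
  have hw1 : 1 ≤ w := hSt.w1
  have hw1' : (1 : ℝ) ≤ w := by exact_mod_cast hw1
  have hH : 0 < H := hSt.H0
  have hD4 : 1 ≤ D ^ 4 := one_le_pow₀ hD1
  have hw2 : (w : ℝ) ^ 2 ≤ R := by
    calc (w : ℝ) ^ 2 = 1 * 1 * (w : ℝ) ^ 2 := by ring
      _ ≤ C * D ^ 4 * (w : ℝ) ^ 2 := by gcongr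
      _ ≤ R := hwR
  have hRpos : 0 < R := by linarith
  have hRe : 0 < R ^ ε := Real.rpow_pos_of_pos hRpos _
  have hpk : ∀ p ∈ P, p.2.1 ∈ Ks 2 (w : ℝ)⁻¹ := fun p hp => (hSt.pk p hp).1
  have hsurj : ∀ p ∈ P, ∃ y, Lc w p.2.1 y = p.2.2 := fun p hp =>
    (hCmp2 w p.2.1 p.2.2 0 hw1 (hpk p hp)).2.2.2.1
  have hQm : ∀ q ∈ Q, q.1 ∈ X ∧ q.2 ∈ P := fun q hq => ⟨(hSt.rel q hq).1, (hSt.rel q hq).2.1⟩
  obtain ⟨hbk, hcard, heg, hdeg⟩ := comb w X P Q hsurj hQm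
  have hQpos : 0 < (Q.card : ℝ) := by
    by_contra hcon
    have h0 : (Q.card : ℝ) = 0 := le_antisymm (not_lt.1 hcon) (Nat.cast_nonneg _)
    have := hSt.low
    rw [h0] at this
    simp only [zero_mul, mul_zero] at this
    linarith
  -- E43 and GSB
  have hg0 : 0 ≤ Cb * R ^ ε := by positivity
  have hgD : Cb * R ^ ε ≤ D := by
    calc Cb * R ^ ε = 1 * Cb * R ^ ε := by ring
      _ ≤ C * Cb * R ^ ε := by gcongr
      _ ≤ D := hCD
  have hgD3 : C3 * Cb * R ^ ε ≤ D := by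
    calc C3 * Cb * R ^ ε ≤ C * Cb * R ^ ε := by gcongr
      _ ≤ D := hCD
  have e1 : (P.card : ℝ) * (w : ℝ) ^ 4 ≤ D ^ 4 * Q.card := by
    have h1 := hgsb ε Cb R A' D H w G P hE hε hCb hR1 hA' hH hD1 hw1 hw2 hcls hSt.sep hSt.tg
      hSt.pk
    refine num1 P.card ((w : ℝ) ^ 4) (H ^ (10 / 3 : ℝ) * (w : ℝ) ^ (2 / 3 : ℝ))
      (En43 A' R G) D Q.card (C3 * Cb * R ^ ε) (by positivity) hQpos.le hD1 hgD3 (by positivity)
      ?_ ?_
    · calc (P.card : ℝ) * (w : ℝ) ^ 4 * (H ^ (10 / 3 : ℝ) * (w : ℝ) ^ (2 / 3 : ℝ))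
          = (P.card : ℝ) * (w : ℝ) ^ 4 * H ^ (10 / 3 : ℝ) * (w : ℝ) ^ (2 / 3 : ℝ) := by ring
        _ ≤ C3 * D * Cb * R ^ ε * En43 A' R G := h1
        _ = _ := by ring
    · calc En43 A' R G ≤ D * (Q.card * H ^ (10 / 3 : ℝ) * (w : ℝ) ^ (2 / 3 : ℝ)) := hSt.low
        _ = _ := by ring
  have e2 : (w : ℝ) * X.card ≤ D ^ 4 * Q.card := by
    have h1 := hE R A' H₀ G X hR1 hA' hH0 hcls hsep (fun z hz => (hXz z hz).2.2)
    exact num2 X.card w H H₀ D Q.card (Cb * R ^ ε) (En43 A' R G) hH hH0 hw1' hQpos.le hD1 hgD hg0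
      h1 hSt.low hSt.lev2
  have heg' : (Q.card : ℝ) ≤ eg (II w Q) X (P.image (pull w)) := by exact_mod_cast heg
  have hLL : ∀ p ∈ P, ∀ z z' : Z 2, Lo (ctr (w : ℝ)⁻¹ p.2.1) (w : ℝ)⁻¹ (z - z') =
      Lc w p.2.1 z - Lc w p.2.1 z' := fun p hp z z' => (hCmp2 w p.2.1 z z' hw1 (hpk p hp)).1
  have hDD4 : D ^ 4 ≤ D₂ ^ 4 := by gcongr
  have hD2 : 1 ≤ D₂ := hD1.trans hDD
  have hFam : Fam β G H w K₁ (P.image (pull w)) := by
    refine ⟨?_, ?_, ?_, ?_⟩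
    · intro p' hp'
      have hb := hbk p' hp'
      have h1 := (hSt.pk _ hb).2
      have h2 := (hrse (1 / 4) R A' (w : ℝ)⁻¹ (ctr (w : ℝ)⁻¹ p'.2.1) G (by norm_num) (by norm_num)
        hA' (by positivity) (inv_le_one_of_one_le₀ hw1') (by
          rw [inv_pow, ← div_eq_mul_inv, le_div_iff₀ (by positivity)]
          linarith) hcls).2.1 p'.2.2
      have h3 : TF (Gc β w G p'.2.1) (Lc w p'.2.1 p'.2.2) =
        TP β (ctr (w : ℝ)⁻¹ p'.2.1) (w : ℝ)⁻¹ G p'.2.2 := h2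
      have h4 : H ≤ ‖TF (Gc β w G p'.2.1) (Lc w p'.2.1 p'.2.2)‖ := h1
      rw [h3] at h4
      exact h4
    · intro p' hp'
      have hb := hbk p' hp'
      have h1 := (hSt.pk _ hb).2
      have h0 : TF (Gc β w G (bk w p').2.1) (bk w p').2.2 ≠ 0 := by
        intro h0
        rw [h0, norm_zero] at h1
        linarith
      have h2 := (hCmp3 L β R A' G w _ _ hβ hR1 hA' hw1 hcls h0).2
      have h3 : (1 : ℝ) / w ≤ 1 := by
        rw [div_le_one (by positivity)]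
        exact hw1'
      show ‖ctr (w : ℝ)⁻¹ p'.2.1‖ ≤ 3
      have h4 : ‖ctr (w : ℝ)⁻¹ p'.2.1‖ ≤ 5 / 4 + 1 / w := h2
      linarith
    · intro p' hp'
      have hb := hbk p' hp'
      have h1 := hSt.tgd _ hb
      show ‖ctr (w : ℝ)⁻¹ p'.2.1 - ctr (K₁ : ℝ)⁻¹ p'.1‖ ≤ 100 / K₁
      have h2 : ‖ctr (w : ℝ)⁻¹ p'.2.1 - ctr (K₁ : ℝ)⁻¹ p'.1‖ ≤ 100 / K₁ - 100 / w := h1
      have h3 : (0 : ℝ) ≤ 100 / w := by positivity
      linarith
    · intro p hp p' hp' ht hk hne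
      have hb := hbk p hp
      have hb' := hbk p' hp'
      have h1 : Lo (ea (w : ℝ) p) (w : ℝ)⁻¹ (p.2.2 - p'.2.2) =
          Lc w p.2.1 p.2.2 - Lc w p.2.1 p'.2.2 := hLL _ hb p.2.2 p'.2.2
      rw [h1]
      have h2 : (bk w p) ≠ (bk w p') := by
        intro h2
        apply hne
        obtain ⟨r, hr, rfl⟩ := Finset.mem_image.1 hp
        obtain ⟨r', hr', rfl⟩ := Finset.mem_image.1 hp'
        rw [bk_pull w r (hsurj r hr), bk_pull w r' (hsurj r' hr')] at h2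
        rw [h2]
      have h3 := hSt.sep _ hb _ hb' h2 ht hk
      have h4 : 1 ≤ ‖Lc w p.2.1 p.2.2 - Lc w p'.2.1 p'.2.2‖ := h3
      rw [← hk] at h4
      exact h4
  have hEnd : EndS (D ^ 4) w K₁ X (P.image (pull w)) (II w Q) := by
    refine ⟨?_, ?_, ?_, hsep, ?_, ?_, ?_⟩
    · intro z hz p hp hI
      have h1 := hSt.rel _ hI
      have h2 : Lo (ea (w : ℝ) p) (w : ℝ)⁻¹ (z - p.2.2) = Lc w p.2.1 z - Lc w p.2.1 p.2.2 :=
        hLL _ (hbk p hp) z p.2.2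
      rw [h2]
      have h3 : ‖Lc w p.2.1 z - Lc w p.2.1 p.2.2‖ ≤ D := h1.2.2
      have h4 : D ≤ D ^ 4 := le_self_pow₀ hD1 (by norm_num)
      linarith
    · intro z hz t
      have h1 : (((P.image (pull w)).filter fun p => II w Q z p ∧ p.1 = t).card : ℝ) ≤
        (Qzt Q z t).card := by exact_mod_cast hdeg z t
      have h2 := hSt.tdeg z t
      have h3 : D * w / K₁ ≤ D ^ 4 * w / K₁ := by
        have h4 : D ≤ D ^ 4 := le_self_pow₀ hD1 (by norm_num)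
        gcongr
      convert h1.trans (h2.trans h3)
    · intro z hz
      obtain ⟨V, hV, hq⟩ := hSt.top z
      refine ⟨n, V, ?_, ?_, ?_⟩
      · have h4 : D ≤ D ^ 4 := le_self_pow₀ hD1 (by norm_num)
        linarith
      · intro j h0
        have := hV j
        rw [h0, norm_zero] at this
        norm_num at this
      · intro p hp hI
        obtain ⟨j, η, hη, hd⟩ := hq _ hI rfl
        rw [cz_cir] at hη
        exact ⟨j, η, hη, hd⟩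
    · have : 0 < (eg (II w Q) X (P.image (pull w)) : ℝ) := lt_of_lt_of_le hQpos heg'
      exact_mod_cast this
    · rw [hcard]
      exact e1.trans (by gcongr)
    · exact e2.trans (by gcongr)
  have hfin := hob R A (D ^ 4) (D₂ ^ 4) w K₁ H f X (P.image (pull w)) (II w Q) (hC1C.trans hCR) hf
    hA hD4 hDD4 (by exact_mod_cast hSt.K1) (by exact_mod_cast hSt.Kw) ?_ hH ?_ ?_ hFam hEnd
  · calc (K₁ : ℝ) ≤ C1 * R ^ δ * (D₂ ^ 4) ^ C₀ := hfin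
      _ ≤ C * R ^ δ * (D₂ ^ 4) ^ C₀ := by gcongr
      _ = C * R ^ δ * D₂ ^ (4 * C₀) := by rw [pow_mul]
  · calc 300 * D ^ 4 * (w : ℝ) ^ 2 ≤ C * D ^ 4 * (w : ℝ) ^ 2 := by gcongr
      _ ≤ R := hwR
  · calc A * R ≤ A' * R := by gcongr
      _ ≤ D₂ * ((w : ℝ) ^ 2 * H) := hAR
      _ ≤ D₂ ^ 4 * ((w : ℝ) ^ 2 * H) := by
          gcongr
          exact le_self_pow₀ hD2 (by norm_num)
      _ = D₂ ^ 4 * (w : ℝ) ^ 2 * H := by ring
  · intro z hz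
    have h1 := hXz z hz
    rw [abs_of_nonneg (by linarith)]
    exact h1.2.1

end Pool.Agent.H83.D3N.OBT
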